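import Pool.Agent.W539.Mot.Defs

namespace Pool.Agent.W539.Mot

open Module

variable {n : ℕ} (D : HomMot n)

namespace HomMot

theorem van : ∀ k : ℤ, k < 0 → D.G k = ⊥ := D.gr.van
theorem ip_nd : D.ip.Nondegenerate := D.gr.ip_nd
theorem ip_deg : ∀ (k l : ℤ) (u v : D.V), u ∈ D.G k → v ∈ D.G l → k + l ≠ 2 * n →
    D.ip u v = 0 := D.gr.ip_deg
theorem even : ∀ x ∈ D.E, ∀ (k : ℤ), ∀ v ∈ D.G k, x v ∈ ⨆ j : ℤ, D.G (k + 2 * j) := D.co.even
theorem adj : ∀ (x : Module.End ℚ D.V) (u v : D.V), D.ip (x u) v = D.ip u (D.t x v) := D.co.adj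
theorem t_mem : ∀ x ∈ D.E, D.t x ∈ D.E := D.co.t_mem
theorem π_spec : ∀ (k : ℤ), ∀ v ∈ D.G k, D.π k v = v := D.co.π_spec
theorem π_zero : ∀ (k l : ℤ), ∀ v ∈ D.G l, l ≠ k → D.π k v = 0 := D.co.π_zero
theorem π_mem : ∀ k, D.π k ∈ D.E := D.co.π_mem
theorem L_mem : D.L ∈ D.E := D.lf.L_mem
theorem L_deg : ∀ (k : ℤ), ∀ v ∈ D.G k, D.L v ∈ D.G (k + 2) := D.lf.L_deg
theorem L_adj : ∀ u v : D.V, D.ip (D.L u) v = D.ip u (D.L v) := D.lf.L_adj
theorem hl_surj : ∀ (i : ℕ), ∀ v ∈ D.G (n + i), ∃ u ∈ D.G (n - i), (D.L ^ i) u = v :=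
  D.lf.hl_surj
theorem hl_inv : ∀ (i : ℕ), ∃ θ ∈ D.E, ∀ u ∈ D.G (n - i), θ ((D.L ^ i) u) = u := D.lf.hl_inv
theorem s_mem : D.s ∈ D.E := D.st.s_mem
theorem s_spec : ∀ (k : ℤ) (i j : ℕ), k + i + j = n → ∀ v ∈ D.G k, (D.L ^ (i + j + 1)) v = 0 →
    D.s ((D.L ^ i) v) = ((-1 : ℚ) ^ (k * (k - 1) / 2)) • (D.L ^ j) v := D.st.s_spec
theorem pos : ∀ x ∈ D.E, x ≠ 0 → 0 < LinearMap.trace ℚ D.V (x * D.s * D.t x * D.s) := D.st.pos
theorem e_mem : D.e ∈ D.E := D.pr.e_mem
theorem e_idem : D.e * D.e = D.e := D.pr.e_idem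
theorem e_deg : ∀ (k : ℤ), ∀ v ∈ D.G k, D.e v ∈ D.G k := D.pr.e_deg
theorem e_L : D.e * D.L = D.L * D.e := D.pr.e_L

theorem ext_G {f g : Module.End ℚ D.V} (h : ∀ k : ℤ, ∀ v ∈ D.G k, f v = g v) : f = g := by
  ext v
  induction v using DirectSum.Decomposition.inductionOn D.G with
  | zero => simp
  | homogeneous v => exact h _ _ v.2
  | add u v hu hv => rw [map_add, map_add, hu, hv]

theorem t_uniq {x y : Module.End ℚ D.V} (h : ∀ u v, D.ip (x u) v = D.ip u (y v)) :
    D.t x = y := by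
  ext v
  refine sub_eq_zero.mp (D.ip_nd.2 _ fun u => ?_)
  rw [map_sub, ← D.adj, h, sub_self]

theorem t_mul (x y : Module.End ℚ D.V) : D.t (x * y) = D.t y * D.t x :=
  D.t_uniq fun u v => by
    rw [Module.End.mul_apply, Module.End.mul_apply, D.adj, D.adj]

theorem t_add (x y : Module.End ℚ D.V) : D.t (x + y) = D.t x + D.t y :=
  D.t_uniq fun u v => by
    rw [LinearMap.add_apply, map_add, LinearMap.add_apply, LinearMap.add_apply, D.adj, D.adj,
      map_add]

theorem t_smul (c : ℚ) (x : Module.End ℚ D.V) : D.t (c • x) = c • D.t x :=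
  D.t_uniq fun u v => by
    rw [LinearMap.smul_apply, map_smul, LinearMap.smul_apply, LinearMap.smul_apply, D.adj,
      map_smul]

/-- Transposition as a linear map. -/
def tl : Module.End ℚ D.V →ₗ[ℚ] Module.End ℚ D.V where
  toFun := D.t
  map_add' := D.t_add
  map_smul' := D.t_smul

theorem tl_apply (x : Module.End ℚ D.V) : D.tl x = D.t x := rfl

theorem t_inj {x : Module.End ℚ D.V} (h : D.t x = 0) : x = 0 := by
  ext u
  refine D.ip_nd.1 _ fun v => ?_
  rw [D.adj, h]
  simp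

theorem t_L : D.t D.L = D.L := D.t_uniq D.L_adj

theorem van_big (k : ℤ) (hk : 2 * n < k) : D.G k = ⊥ := by
  rw [eq_bot_iff]
  intro v hv
  obtain ⟨i, rfl⟩ : ∃ i : ℕ, k = n + i := ⟨(k - n).toNat, by omega⟩
  obtain ⟨u, hu, rfl⟩ := D.hl_surj i v hv
  rw [D.van _ (by omega)] at hu
  rw [(Submodule.mem_bot ℚ).mp hu, map_zero]
  exact Submodule.zero_mem _

theorem π_apply (k l : ℤ) (v : D.V) (hv : v ∈ D.G l) : D.π k v = if l = k then v else 0 := by
  split_ifs with h
  · subst h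
    exact D.π_spec _ v hv
  · exact D.π_zero k l v hv h

theorem π_out (k : ℤ) (hk : k < 0 ∨ 2 * n < k) : D.π k = 0 := by
  refine D.ext_G fun l v hv => ?_
  rw [D.π_apply k l v hv]
  split_ifs with h
  · subst h
    have : D.G l = ⊥ := by
      rcases hk with hk | hk
      · exact D.van l hk
      · exact D.van_big l hk
    rw [this] at hv
    rw [(Submodule.mem_bot ℚ).mp hv]
    simp
  · simp

theorem π_mul (k l : ℤ) : D.π k * D.π l = if k = l then D.π k else 0 := by
  refine D.ext_G fun m v hv => ?_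
  rw [Module.End.mul_apply, D.π_apply l m v hv]
  by_cases h : m = l
  · rw [if_pos h]
    split_ifs with h2
    · rfl
    · rw [D.π_apply k m v hv, if_neg (by omega)]
      simp
  · rw [if_neg h, map_zero]
    split_ifs with h2
    · rw [D.π_apply k m v hv, if_neg (by omega)]
    · simp

theorem π_idem (k : ℤ) : D.π k * D.π k = D.π k := by
  rw [π_mul, if_pos rfl]

theorem π_orth {k l : ℤ} (h : k ≠ l) : D.π k * D.π l = 0 := by
  rw [π_mul, if_neg h]

theorem sum_π : ∑ k ∈ Finset.range (2 * n + 1), D.π k = 1 := by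
  refine D.ext_G fun l v hv => ?_
  rw [LinearMap.sum_apply]
  by_cases hl : 0 ≤ l ∧ l ≤ 2 * n
  · rw [Finset.sum_eq_single l.toNat]
    · rw [D.π_apply _ l v hv, if_pos (by omega)]
      rfl
    · intro k _ hk
      rw [D.π_apply _ l v hv, if_neg (by omega)]
    · intro h
      rw [Finset.mem_range] at h
      omega
  · have hb : D.G l = ⊥ := by
      rcases not_and_or.mp hl with h | h
      · exact D.van l (by omega)
      · exact D.van_big l (by omega)
    rw [hb] at hv
    rw [(Submodule.mem_bot ℚ).mp hv]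
    simp

theorem π_mem_G (k : ℤ) (v : D.V) : D.π k v ∈ D.G k := by
  induction v using DirectSum.Decomposition.inductionOn D.G with
  | zero => simp
  | @homogeneous i v =>
    rw [D.π_apply k i v v.2]
    split_ifs with h
    · subst h
      exact v.2
    · exact Submodule.zero_mem _
  | add u v hu hv =>
    rw [map_add]
    exact Submodule.add_mem _ hu hv

theorem mem_G_iff (k : ℤ) (v : D.V) : v ∈ D.G k ↔ D.π k v = v :=
  ⟨fun h => D.π_spec k v h, fun h => h ▸ D.π_mem_G k v⟩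

/-- Elements preserving the degree commute with the projectors. -/
theorem π_comm {x : Module.End ℚ D.V} (h : ∀ (k : ℤ), ∀ v ∈ D.G k, x v ∈ D.G k) (k : ℤ) :
    D.π k * x = x * D.π k := by
  refine D.ext_G fun l v hv => ?_
  rw [Module.End.mul_apply, Module.End.mul_apply, D.π_apply k l v hv, D.π_apply k l _ (h l v hv)]
  split_ifs with h
  · rfl
  · simp

theorem π_e (k : ℤ) : D.π k * D.e = D.e * D.π k := D.π_comm D.e_deg k

theorem π_L (k : ℤ) : D.π (k + 2) * D.L = D.L * D.π k := by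
  refine D.ext_G fun l v hv => ?_
  rw [Module.End.mul_apply, Module.End.mul_apply, D.π_apply k l v hv,
    D.π_apply (k + 2) (l + 2) _ (D.L_deg l v hv)]
  by_cases h : l = k
  · rw [if_pos h, if_pos (by omega)]
  · rw [if_neg h, if_neg (by omega), map_zero]

theorem π_Lpow (k : ℤ) (i : ℕ) : D.π (k + 2 * i) * D.L ^ i = D.L ^ i * D.π k := by
  induction i with
  | zero => simp
  | succ i ih =>
    have e : k + 2 * ((i + 1 : ℕ) : ℤ) = (k + 2 * i) + 2 := by push_cast; ring
    rw [e, pow_succ', ← mul_assoc, D.π_L, mul_assoc, ih, mul_assoc]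

theorem t_π (k : ℤ) : D.t (D.π k) = D.π (2 * n - k) := by
  refine D.t_uniq fun u v => ?_
  induction u using DirectSum.Decomposition.inductionOn D.G with
  | zero => simp
  | @homogeneous i u =>
    induction v using DirectSum.Decomposition.inductionOn D.G with
    | zero => simp
    | @homogeneous j v =>
      rw [D.π_apply k i u u.2, D.π_apply (2 * n - k) j v v.2]
      by_cases h1 : i = k
      · by_cases h2 : j = 2 * n - k
        · rw [if_pos h1, if_pos h2]
        · rw [if_pos h1, if_neg h2, D.ip_deg i j u v u.2 v.2 (by omega)]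
          simp
      · by_cases h2 : j = 2 * n - k
        · rw [if_neg h1, if_pos h2, D.ip_deg i j u v u.2 v.2 (by omega)]
          simp
        · rw [if_neg h1, if_neg h2]
          simp
    | add v w hv hw => rw [map_add, map_add, map_add, hv, hw]
  | add u w hu hw =>
    rw [map_add, map_add, LinearMap.add_apply, hu, hw, map_add, LinearMap.add_apply]

/-- The sign in degree `k`. -/
def sg (k : ℤ) : ℚ := if (k / 2) % 2 = 0 then 1 else -1

theorem sg_sq (k : ℤ) : sg k * sg k = 1 := by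
  unfold sg
  split_ifs <;> norm_num

theorem sg_add_two (k : ℤ) : sg (k + 2) = - sg k := by
  unfold sg
  have : (k + 2) / 2 = k / 2 + 1 := by omega
  rw [this]
  by_cases h : k / 2 % 2 = 0
  · rw [if_pos h, if_neg (by omega)]
  · rw [if_neg h, if_pos (by omega), neg_neg]

theorem sg_nat (k : ℕ) : sg k = (-1) ^ (k / 2) := by
  unfold sg
  by_cases h : (k / 2) % 2 = 0
  · rw [if_pos (by omega), Even.neg_one_pow (Nat.even_iff.mpr h)]
  · rw [if_neg (by omega), Odd.neg_one_pow (Nat.odd_iff.mpr (by omega))]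

theorem δ_eq : D.δ = ∑ k ∈ Finset.range (2 * n + 1), (sg k) • D.π k := by
  unfold HomMot.δ
  refine Finset.sum_congr rfl fun k _ => ?_
  rw [sg_nat]

theorem δ_π (k : ℤ) : D.δ * D.π k = sg k • D.π k := by
  rw [δ_eq, Finset.sum_mul]
  by_cases hl : 0 ≤ k ∧ k ≤ 2 * n
  · rw [Finset.sum_eq_single k.toNat]
    · rw [smul_mul_assoc, π_mul, if_pos (by omega)]
      have : ((k.toNat : ℕ) : ℤ) = k := by omega
      rw [this]
    · intro l _ hl
      rw [smul_mul_assoc, π_mul, if_neg (by omega), smul_zero]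
    · intro h
      rw [Finset.mem_range] at h
      omega
  · have hb : D.π k = 0 := by
      rcases not_and_or.mp hl with h | h
      · exact D.π_out k (Or.inl (by omega))
      · exact D.π_out k (Or.inr (by omega))
    simp [hb]

theorem π_δ (k : ℤ) : D.π k * D.δ = sg k • D.π k := by
  rw [← δ_π]
  unfold HomMot.δ
  rw [Finset.mul_sum, Finset.sum_mul]
  refine Finset.sum_congr rfl fun l _ => ?_
  rw [mul_smul_comm, smul_mul_assoc, π_mul, π_mul]
  by_cases h : k = l
  · rw [if_pos h, if_pos h.symm, h]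
  · rw [if_neg h, if_neg (Ne.symm h)]

theorem ext_π {f g : Module.End ℚ D.V} (h : ∀ k : ℤ, f * D.π k = g * D.π k) : f = g := by
  refine D.ext_G fun k v hv => ?_
  have := congrArg (fun x : Module.End ℚ D.V => x v) (h k)
  simp only [Module.End.mul_apply, D.π_spec k v hv] at this
  exact this

theorem δ_δ : D.δ * D.δ = 1 := by
  refine D.ext_π fun k => ?_
  rw [mul_assoc, δ_π, mul_smul_comm, δ_π, smul_smul, sg_sq, one_smul, one_mul]

theorem δ_L : D.δ * D.L = - (D.L * D.δ) := by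
  refine D.ext_π fun k => ?_
  rw [mul_assoc, ← D.π_L, ← mul_assoc, δ_π, sg_add_two, neg_mul, mul_assoc, δ_π, neg_smul,
    neg_mul, smul_mul_assoc, π_L, mul_smul_comm]

theorem δ_mem : D.δ ∈ D.E := by
  unfold HomMot.δ
  exact Subalgebra.sum_mem _ fun k _ => Subalgebra.smul_mem _ (D.π_mem _) _

theorem e_δ : D.δ * D.e = D.e * D.δ := by
  refine D.ext_π fun k => ?_
  rw [mul_assoc, ← D.π_e, ← mul_assoc, δ_π, mul_assoc, δ_π, smul_mul_assoc, mul_smul_comm, π_e]

theorem σ_mem {x : Module.End ℚ D.V} (hx : x ∈ D.E) : D.σ x ∈ D.E :=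
  D.E.mul_mem (D.E.mul_mem D.δ_mem (D.t_mem x hx)) D.δ_mem

theorem e'_mem : D.e' ∈ D.E := D.E.sub_mem D.E.one_mem D.e_mem

theorem e'_idem : D.e' * D.e' = D.e' := by
  unfold HomMot.e'
  rw [mul_sub, sub_mul, sub_mul, D.e_idem]
  simp

theorem e_e' : D.e * D.e' = 0 := by
  unfold HomMot.e'
  rw [mul_sub, D.e_idem, mul_one, sub_self]

theorem e'_e : D.e' * D.e = 0 := by
  unfold HomMot.e'
  rw [sub_mul, D.e_idem, one_mul, sub_self]

theorem π_e' (k : ℤ) : D.π k * D.e' = D.e' * D.π k := by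
  unfold HomMot.e'
  rw [mul_sub, sub_mul, π_e, mul_one, one_mul]

theorem e'_L : D.e' * D.L = D.L * D.e' := by
  unfold HomMot.e'
  rw [mul_sub, sub_mul, D.e_L, mul_one, one_mul]

end HomMot

end Pool.Agent.W539.Mot
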