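import Pool.Agent.W539.Mot.Lift

namespace Pool.Agent.W539.Mot

open Module

variable {n : ℕ}

/-- Cancellation. -/
theorem HomMot.cancel (D : HomMot n) (I : Finset ℤ) (k : ℤ) (hk : k ∈ I) (h : D.IsoSum I)
    (h' : ∀ l ∈ I, l ≠ k → D.IsoDeg l) : D.IsoDeg k := by
  classical
  refine D.isoDeg_of_td fun T hT => ?_
  have h1 := D.sum_td_of_isoSum h hT
  rw [← Finset.add_sum_erase I _ hk, ← Finset.add_sum_erase I _ hk] at h1
  have h2 : ∑ l ∈ I.erase k, D.td T D.e l = ∑ l ∈ I.erase k, D.td T D.e' l :=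
    Finset.sum_congr rfl fun l hl =>
      D.td_of_isoDeg (h' l (Finset.mem_of_mem_erase hl) (Finset.ne_of_mem_erase hl)) hT
  rw [h2] at h1
  exact Nat.add_right_cancel h1

/-- Degree `n - 2` in dimension at most five. -/
theorem HomMot.IsFM.low (D : HomMot n) {F : Module.End ℚ D.V} (h : D.IsFM F) (h2 : 2 ≤ n)
    (h5 : n ≤ 5) : D.IsoDeg (n - 2) := by
  refine D.cancel (I2 n) (n - 2) ?_ h.iso2 ?_
  · unfold I2
    rw [Finset.mem_filter, Finset.mem_Icc]
    omega
  · intro l hl hne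
    unfold I2 at hl
    rw [Finset.mem_filter, Finset.mem_Icc] at hl
    omega

end Pool.Agent.W539.Mot
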