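import Mathlib

namespace Pool.Agent.W539.Mot

section Axioms

variable {V : Type} [AddCommGroup V] [Module ℚ V]

/-- The cohomology `V` of an `n`-dimensional smooth projective `Z`, with its part `G k` of degree
`k` and the cup product pairing `ip`. -/
structure GrAx (n : ℕ) (G : ℤ → Submodule ℚ V) (ip : LinearMap.BilinForm ℚ V) : Prop where
  van : ∀ k : ℤ, k < 0 → G k = ⊥
  ip_nd : ip.Nondegenerate
  ip_deg : ∀ (k l : ℤ) (u v : V), u ∈ G k → v ∈ G l → k + l ≠ 2 * n → ip u v = 0

/-- The algebra `E` of correspondences, acting on `V`, the transposition `t` and the Künneth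
projectors `π k`. -/
structure CorrAx (G : ℤ → Submodule ℚ V) (ip : LinearMap.BilinForm ℚ V)
    (E : Subalgebra ℚ (Module.End ℚ V)) (t : Module.End ℚ V → Module.End ℚ V)
    (π : ℤ → Module.End ℚ V) : Prop where
  even : ∀ x ∈ E, ∀ (k : ℤ), ∀ v ∈ G k, x v ∈ ⨆ j : ℤ, G (k + 2 * j)
  adj : ∀ (x : Module.End ℚ V) (u v : V), ip (x u) v = ip u (t x v)
  t_mem : ∀ x ∈ E, t x ∈ E
  π_spec : ∀ (k : ℤ), ∀ v ∈ G k, π k v = v
  π_zero : ∀ (k l : ℤ), ∀ v ∈ G l, l ≠ k → π k v = 0
  π_mem : ∀ k, π k ∈ E

/-- The Lefschetz operator `L`: hard Lefschetz, and the inverses of its powers are in `E`. -/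
structure LefAx (n : ℕ) (G : ℤ → Submodule ℚ V) (ip : LinearMap.BilinForm ℚ V)
    (E : Subalgebra ℚ (Module.End ℚ V)) (L : Module.End ℚ V) : Prop where
  L_mem : L ∈ E
  L_deg : ∀ (k : ℤ), ∀ v ∈ G k, L v ∈ G (k + 2)
  L_adj : ∀ u v : V, ip (L u) v = ip u (L v)
  hl_surj : ∀ (i : ℕ), ∀ v ∈ G (n + i), ∃ u ∈ G (n - i), (L ^ i) u = v
  hl_inv : ∀ (i : ℕ), ∃ θ ∈ E, ∀ u ∈ G (n - i), θ ((L ^ i) u) = u

/-- The Hodge star operator `s` (without Weil operator) and the positivity. -/
structure StarAx (n : ℕ) (G : ℤ → Submodule ℚ V) (E : Subalgebra ℚ (Module.End ℚ V))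
    (t : Module.End ℚ V → Module.End ℚ V) (L s : Module.End ℚ V) : Prop where
  s_mem : s ∈ E
  s_spec : ∀ (k : ℤ) (i j : ℕ), k + i + j = n → ∀ v ∈ G k, (L ^ (i + j + 1)) v = 0 →
    s ((L ^ i) v) = ((-1 : ℚ) ^ (k * (k - 1) / 2)) • (L ^ j) v
  pos : ∀ x ∈ E, x ≠ 0 → 0 < LinearMap.trace ℚ V (x * s * t x * s)

/-- The projector `e` onto the cohomology of the component `X` of `Z = X ⊔ X'`. -/
structure ProjAx (G : ℤ → Submodule ℚ V) (E : Subalgebra ℚ (Module.End ℚ V))
    (L e : Module.End ℚ V) : Prop where
  e_mem : e ∈ E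
  e_idem : e * e = e
  e_deg : ∀ (k : ℤ), ∀ v ∈ G k, e v ∈ G k
  e_L : e * L = L * e

/-- The map `ρ` from correspondences of degree zero modulo rational equivalence to `E`; its kernel
consists of nilpotent elements. -/
structure ChowAx (G : ℤ → Submodule ℚ V) (E : Subalgebra ℚ (Module.End ℚ V))
    {C : Type} [Ring C] (ρ : C →+* Module.End ℚ V) : Prop where
  ρ_mem : ∀ x, ρ x ∈ E
  ρ_deg : ∀ x (k : ℤ), ∀ v ∈ G k, ρ x v ∈ G k
  ρ_surj : ∀ y ∈ E, (∀ (k : ℤ), ∀ v ∈ G k, y v ∈ G k) → ∃ x, ρ x = y
  nil : ∀ x, ρ x = 0 → IsNilpotent x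

end Axioms

/-- Cohomological correspondences of `Z = X ⊔ X'`, where `X`, `X'` are smooth projective varieties
of dimension `n` over a field which embeds in the complex numbers.

`V` is the rational cohomology of `Z`, `G k` its part of degree `k`, `ip` the cup product pairing,
`t` the transposition of correspondences, `L` the Lefschetz operator of an ample class and `e` the
class of the diagonal of `X` (the projector onto the cohomology of `X`). `E` is an algebra of
endomorphisms of `V` given by correspondences on `Z` (of all degrees). There are two cases in mind: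

(Hodge) `E` consists of all Hodge classes on `Z × Z`. Then all the properties below are classical
(hard Lefschetz and the Hodge-Riemann relations), and the `G k` with isomorphisms in `E` are
rational Hodge structures up to Tate twists;

(motivic) `E` consists of the classes of algebraic cycles on `Z × Z`. Then the algebraicity of the
Künneth projectors, of the inverses of the powers of `L` and of the Hodge star operator is the
Lefschetz standard conjecture for `X` and `X'`, and `pos` is the Hodge standard conjecture, a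
theorem in characteristic zero. The `G k` with isomorphisms in `E` are homological motives up to
Tate twists. -/
structure HomMot (n : ℕ) where
  V : Type
  [ac : AddCommGroup V]
  [mod : Module ℚ V]
  [fin : FiniteDimensional ℚ V]
  /-- cohomology in degree `k` -/
  G : ℤ → Submodule ℚ V
  [dec : DirectSum.Decomposition G]
  /-- cup product pairing -/
  ip : LinearMap.BilinForm ℚ V
  /-- the algebra of correspondences -/
  E : Subalgebra ℚ (Module.End ℚ V)
  /-- transposition: the adjoint for the cup product pairing -/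
  t : Module.End ℚ V → Module.End ℚ V
  /-- the Künneth projectors -/
  π : ℤ → Module.End ℚ V
  /-- the Lefschetz operator -/
  L : Module.End ℚ V
  /-- the Hodge star operator (without Weil operator) -/
  s : Module.End ℚ V
  /-- the projector onto the cohomology of `X` -/
  e : Module.End ℚ V
  gr : GrAx n G ip
  co : CorrAx G ip E t π
  lf : LefAx n G ip E L
  st : StarAx n G E t L s
  pr : ProjAx G E L e

attribute [instance] HomMot.ac HomMot.mod HomMot.fin HomMot.dec

variable {n : ℕ}

/-- The projector onto the cohomology of `X'`. -/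
def HomMot.e' (D : HomMot n) : Module.End ℚ D.V := 1 - D.e

/-- The operator with value `(-1)^⌊k/2⌋` on cohomology of degree `k`. -/
noncomputable def HomMot.δ (D : HomMot n) : Module.End ℚ D.V :=
  ∑ k ∈ Finset.range (2 * n + 1), ((-1 : ℚ) ^ (k / 2)) • D.π k

/-- `σ x = ∑ (-1)^j (x_j)^t`, where `x_j` is the component of degree `j` of the correspondence
`x`, that is the part mapping degree `k` to degree `k + 2 j` for all `k`. -/
noncomputable def HomMot.σ (D : HomMot n) (x : Module.End ℚ D.V) : Module.End ℚ D.V :=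
  D.δ * D.t x * D.δ

/-- The class `F` of a (mixed) correspondence from `X` to `X'` which has the shape of the Mukai
vector of the kernel of an equivalence `D(X) ≃ D(X')`: the Mukai vector `σ F` of the kernel of the
inverse functor is inverse to it. -/
def HomMot.IsFM (D : HomMot n) (F : Module.End ℚ D.V) : Prop :=
  F ∈ D.E ∧ F = D.e' * F * D.e ∧ D.σ F * F = D.e ∧ F * D.σ F = D.e'

/-- The projector onto the sum of the cohomology groups in the degrees `k ∈ I`. -/
noncomputable def HomMot.P (D : HomMot n) (I : Finset ℤ) : Module.End ℚ D.V := ∑ k ∈ I, D.π k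

/-- The sums `⨁ h^k(X)` and `⨁ h^k(X')` over `k ∈ I` are isomorphic up to Tate twists:
there are mutually inverse correspondences in `E`, not necessarily of degree zero. -/
def HomMot.IsoSum (D : HomMot n) (I : Finset ℤ) : Prop :=
  ∃ a ∈ D.E, ∃ b ∈ D.E, a = D.P I * D.e' * a ∧ b = D.P I * D.e * b ∧
    b * a = D.P I * D.e ∧ a * b = D.P I * D.e'

/-- `h^k(X)` and `h^k(X')` are isomorphic. -/
def HomMot.IsoDeg (D : HomMot n) (k : ℤ) : Prop := D.IsoSum {k}

/-- The degrees `n - 1, n - 3, n - 5, …`. -/
noncomputable def I1 (n : ℕ) : Finset ℤ := {k ∈ Finset.Icc (0 : ℤ) (n - 1) | (n - 1 - k) % 2 = 0}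

/-- The degrees `n - 2, n - 6, n - 10, …`. -/
noncomputable def I2 (n : ℕ) : Finset ℤ := {k ∈ Finset.Icc (0 : ℤ) (n - 2) | (n - 2 - k) % 4 = 0}

/-- The degrees `…, n - 8, n - 4, n, n + 4, n + 8, …`. -/
noncomputable def I3 (n : ℕ) : Finset ℤ := {k ∈ Finset.Icc (0 : ℤ) (2 * n) | (n - k) % 4 = 0}

/-- The ring `C` of correspondences `CH^n(Z × Z)_ℚ` modulo rational equivalence, with the class
`Δ` of the diagonal of `X`, and its action `ρ` on cohomology, whose image consists of the
correspondences of degree zero in `E` (the motivic case). The kernel of `ρ` consists of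
nilpotent elements (this holds if the Chow motives of `X` and `X'` are finite-dimensional in the
sense of Kimura). -/
structure ChowMot (n : ℕ) extends HomMot n where
  C : Type
  [ring : Ring C]
  ρ : C →+* Module.End ℚ V
  ch : ChowAx G E ρ
  Δ : C
  Δ_idem : Δ * Δ = Δ
  ρ_Δ : ρ Δ = e

attribute [instance] ChowMot.ring

/-- The Chow motives of `X` and `X'` are isomorphic: there are mutually inverse correspondences
of degree zero. -/
def ChowMot.Iso (D : ChowMot n) : Prop :=
  ∃ α β : D.C, α = (1 - D.Δ) * α * D.Δ ∧ β = D.Δ * β * (1 - D.Δ) ∧ β * α = D.Δ ∧ α * β = 1 - D.Δ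

end Pool.Agent.W539.Mot
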