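import Pool.Agent.W539.Mot.Basic

namespace Pool.Agent.W539.Mot

open Module

variable {n : ℕ} (D : HomMot n)

namespace HomMot

theorem pos' {x : Module.End ℚ D.V} (hx : x ∈ D.E)
    (h : LinearMap.trace ℚ D.V (x * D.s * D.t x * D.s) = 0) : x = 0 := by
  by_contra h0
  exact (D.pos x hx h0).ne' h

/-- The operator `s` is invertible in `E`. -/
theorem s_inv : ∃ s' ∈ D.E, D.s * s' = 1 ∧ s' * D.s = 1 := by
  let f : D.E →ₗ[ℚ] D.E := LinearMap.mulRight ℚ (⟨D.s, D.s_mem⟩ : D.E)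
  have hf : Function.Injective f := by
    rw [injective_iff_map_eq_zero]
    intro x hx
    have h1 : (x : Module.End ℚ D.V) * D.s = 0 := congrArg Subtype.val hx
    apply Subtype.ext
    apply D.pos' x.2
    rw [h1, zero_mul, zero_mul, map_zero]
  obtain ⟨s', hs'⟩ := (LinearMap.injective_iff_surjective.mp hf) 1
  have h2 : (s' : Module.End ℚ D.V) * D.s = 1 := congrArg Subtype.val hs'
  exact ⟨s', s'.2, mul_eq_one_comm.mp h2, h2⟩

theorem t_surj {y : Module.End ℚ D.V} (hy : y ∈ D.E) : ∃ x ∈ D.E, D.t x = y := by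
  let f : D.E →ₗ[ℚ] D.E := (D.tl.domRestrict D.E.toSubmodule).codRestrict D.E.toSubmodule
    (fun x => D.t_mem x x.2)
  have hf : Function.Injective f := by
    rw [injective_iff_map_eq_zero]
    intro x hx
    have h1 : D.t (x : Module.End ℚ D.V) = 0 := congrArg Subtype.val hx
    exact Subtype.ext (D.t_inj h1)
  obtain ⟨x, hx⟩ := (LinearMap.injective_iff_surjective.mp hf) ⟨y, hy⟩
  exact ⟨x, x.2, congrArg Subtype.val hx⟩

/-- The positive form `trace (a s b^t s)`. -/
noncomputable def hf : Module.End ℚ D.V →ₗ[ℚ] Module.End ℚ D.V →ₗ[ℚ] ℚ :=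
  LinearMap.mk₂ ℚ (fun a b => LinearMap.trace ℚ D.V (a * D.s * D.t b * D.s))
    (fun x x' y => by rw [add_mul, add_mul, add_mul, map_add])
    (fun c x y => by rw [smul_mul_assoc, smul_mul_assoc, smul_mul_assoc, map_smul])
    (fun x y y' => by rw [D.t_add, mul_add, add_mul, map_add])
    (fun c x y => by rw [D.t_smul, mul_smul_comm, smul_mul_assoc, map_smul])

theorem hf_apply (a b : Module.End ℚ D.V) :
    D.hf a b = LinearMap.trace ℚ D.V (a * D.s * D.t b * D.s) := rfl

/-- The adjoint of right... left multiplication. -/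
theorem hf_adj {c : Module.End ℚ D.V} (hc : c ∈ D.E) : ∃ c' ∈ D.E, ∀ a b : Module.End ℚ D.V,
    D.hf (c * a) b = D.hf a (c' * b) := by
  obtain ⟨s', hs', h1, h2⟩ := D.s_inv
  obtain ⟨c', hc', hcc⟩ := D.t_surj (D.E.mul_mem (D.E.mul_mem D.s_mem hc) hs')
  refine ⟨c', hc', fun a b => ?_⟩
  rw [hf_apply, hf_apply, D.t_mul, hcc]
  have e1 : c * a * D.s * D.t b * D.s = c * (a * D.s * D.t b * D.s) := by simp only [mul_assoc]
  have e2 : a * D.s * (D.t b * (D.s * c * s')) * D.s = (a * D.s * D.t b * D.s) * c := by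
    calc a * D.s * (D.t b * (D.s * c * s')) * D.s
        = a * D.s * D.t b * D.s * c * (s' * D.s) := by simp only [mul_assoc]
      _ = _ := by rw [h2, mul_one]
  rw [e1, e2, LinearMap.trace_mul_comm]

/-- The algebra `E` is von Neumann regular (indeed semisimple). -/
theorem regular (x : Module.End ℚ D.V) (hx : x ∈ D.E) : ∃ z ∈ D.E, x * z * x = x := by
  let I : Submodule ℚ (Module.End ℚ D.V) :=
    { carrier := {y | ∃ z ∈ D.E, y = z * x}
      zero_mem' := ⟨0, D.E.zero_mem, (zero_mul _).symm⟩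
      add_mem' := by
        rintro _ _ ⟨a, ha, rfl⟩ ⟨b, hb, rfl⟩
        exact ⟨a + b, D.E.add_mem ha hb, (add_mul _ _ _).symm⟩
      smul_mem' := by
        rintro c _ ⟨a, ha, rfl⟩
        exact ⟨c • a, D.E.smul_mem ha c, (smul_mul_assoc _ _ _).symm⟩ }
  have hI : ∀ y ∈ I, y ∈ D.E := by
    rintro _ ⟨z, hz, rfl⟩
    exact D.E.mul_mem hz hx
  let φ : I →ₗ[ℚ] Module.Dual ℚ I :=
    { toFun := fun f => (D.hf f).domRestrict I
      map_add' := fun f g => by ext; simp
      map_smul' := fun c f => by ext; simp }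
  have hφ : Function.Injective φ := by
    rw [injective_iff_map_eq_zero]
    intro f hf
    have h1 : D.hf f f = 0 := congrArg (fun ψ : Module.Dual ℚ I => ψ f) hf
    exact Subtype.ext (D.pos' (hI f f.2) h1)
  have hs : Function.Surjective φ :=
    (LinearMap.injective_iff_surjective_of_finrank_eq_finrank
      (Subspace.dual_finrank_eq).symm).mp hφ
  obtain ⟨⟨f, z, hz, hfz⟩, hf⟩ := hs ((D.hf 1).domRestrict I)
  have hf1 : ∀ b ∈ I, D.hf f b = D.hf 1 b := fun b hb =>
    congrArg (fun ψ : Module.Dual ℚ I => ψ ⟨b, hb⟩) hf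
  refine ⟨z, hz, ?_⟩
  have hmem : x * z * x - x ∈ I := by
    refine ⟨x * z - 1, D.E.sub_mem (D.E.mul_mem hx hz) D.E.one_mem, ?_⟩
    rw [sub_mul, one_mul]
  have h2 : D.hf (x * z * x - x) (x * z * x - x) = 0 := by
    obtain ⟨c, hc, hadj⟩ := D.hf_adj hx
    have e : x * z * x - x = x * (f - 1) := by
      rw [mul_sub, hfz, mul_one, mul_assoc]
    rw [show D.hf (x * z * x - x) = D.hf (x * (f - 1)) by rw [e], hadj, map_sub,
      LinearMap.sub_apply, hf1, sub_self]
    obtain ⟨w, hw, hwx⟩ := hmem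
    rw [hwx]
    exact ⟨c * w, D.E.mul_mem hc hw, (mul_assoc _ _ _).symm⟩
  exact sub_eq_zero.mp (D.pos' (hI _ hmem) h2)

end HomMot

end Pool.Agent.W539.Mot
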