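import Mathlib

namespace Pool.Agent.W539.Mot

open Module

variable {M : Type*} [Ring M] [Algebra ℚ M]

/-- The elements of `T` fixed by left multiplication with `u`. -/
def Fx (T : Submodule ℚ M) (u : M) : Submodule ℚ M where
  carrier := {x | x ∈ T ∧ u * x = x}
  zero_mem' := ⟨T.zero_mem, mul_zero _⟩
  add_mem' := by
    rintro x y ⟨h1, h2⟩ ⟨h3, h4⟩
    exact ⟨T.add_mem h1 h3, by rw [mul_add, h2, h4]⟩
  smul_mem' := by
    rintro c x ⟨h1, h2⟩
    exact ⟨T.smul_mem c h1, by rw [mul_smul_comm, h2]⟩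

theorem mem_Fx {T : Submodule ℚ M} {u x : M} : x ∈ Fx T u ↔ x ∈ T ∧ u * x = x := Iff.rfl

/-- Left ideals of the subalgebra `E`. -/
structure LIdeal (E : Subalgebra ℚ M) (T : Submodule ℚ M) : Prop where
  le : ∀ x ∈ T, x ∈ E
  mul : ∀ a ∈ E, ∀ x ∈ T, a * x ∈ T

/-- The principal left ideal. -/
def Pri (E : Subalgebra ℚ M) (g : M) : Submodule ℚ M where
  carrier := {x | ∃ y ∈ E, x = y * g}
  zero_mem' := ⟨0, E.zero_mem, (zero_mul _).symm⟩
  add_mem' := by
    rintro _ _ ⟨a, ha, rfl⟩ ⟨b, hb, rfl⟩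
    exact ⟨a + b, E.add_mem ha hb, (add_mul _ _ _).symm⟩
  smul_mem' := by
    rintro c _ ⟨a, ha, rfl⟩
    exact ⟨c • a, E.smul_mem ha c, (smul_mul_assoc _ _ _).symm⟩

theorem Pri_ideal (E : Subalgebra ℚ M) {g : M} (hg : g ∈ E) : LIdeal E (Pri E g) where
  le := by
    rintro _ ⟨y, hy, rfl⟩
    exact E.mul_mem hy hg
  mul := by
    rintro a ha _ ⟨y, hy, rfl⟩
    exact ⟨a * y, E.mul_mem ha hy, (mul_assoc _ _ _).symm⟩

theorem top_ideal (E : Subalgebra ℚ M) : LIdeal E E.toSubmodule where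
  le := fun _ h => h
  mul := fun _ ha _ hx => E.mul_mem ha hx

/-- Partial equivalences of idempotents. -/
structure Par (E : Subalgebra ℚ M) (u u' a b : M) : Prop where
  ha : a ∈ E
  hb : b ∈ E
  h1 : u' * a = a
  h2 : a * u = a
  h3 : u * b = b
  h4 : b * u' = b
  h5 : a * (b * a) = a
  h6 : b * (a * b) = b

variable {E : Subalgebra ℚ M} {u u' a b : M}

theorem Par.symm (h : Par E u u' a b) : Par E u' u b a :=
  ⟨h.hb, h.ha, h.h3, h.h4, h.h1, h.h2, h.h6, h.h5⟩

theorem Par.rank [FiniteDimensional ℚ M] (h : Par E u u' a b) {T : Submodule ℚ M}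
    (hT : LIdeal E T) : finrank ℚ (Fx T (b * a)) = finrank ℚ (Fx T (a * b)) := by
  let f : Fx T (b * a) →ₗ[ℚ] Fx T (a * b) :=
    { toFun := fun x => ⟨a * x, hT.mul a h.ha x x.2.1, by
        rw [mul_assoc, ← mul_assoc b, x.2.2]⟩
      map_add' := fun x y => by ext; simp [mul_add]
      map_smul' := fun c x => by ext; simp }
  let g : Fx T (a * b) →ₗ[ℚ] Fx T (b * a) :=
    { toFun := fun x => ⟨b * x, hT.mul b h.hb x x.2.1, by
        rw [mul_assoc, ← mul_assoc a, x.2.2]⟩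
      map_add' := fun x y => by ext; simp [mul_add]
      map_smul' := fun c x => by ext; simp }
  refine (LinearEquiv.ofLinearMap f g ?_ ?_).finrank_eq
  · ext x
    show a * (b * (x : M)) = x
    rw [← mul_assoc]
    exact x.2.2
  · ext x
    show b * (a * (x : M)) = x
    rw [← mul_assoc]
    exact x.2.2

theorem Par.le (h : Par E u u' a b) (T : Submodule ℚ M) : Fx T (b * a) ≤ Fx T u := by
  rintro x ⟨h1, h2⟩
  refine ⟨h1, ?_⟩
  rw [← h2, ← mul_assoc, ← mul_assoc, h.h3]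

theorem Par.step [FiniteDimensional ℚ M] (hreg : ∀ x ∈ E, ∃ z ∈ E, x * z * x = x)
    (hu : u ∈ E) (hu' : u' ∈ E) (hi : u * u = u) (hi' : u' * u' = u')
    (hT : ∀ T, LIdeal E T → finrank ℚ (Fx T u) = finrank ℚ (Fx T u'))
    (h : Par E u u' a b) (hne : b * a ≠ u) :
    ∃ a₁ b₁, Par E u u' a₁ b₁ ∧
      finrank ℚ (Fx E.toSubmodule (b * a)) < finrank ℚ (Fx E.toSubmodule (b₁ * a₁)) := by
  have hf : b * a * (b * a) = b * a := by rw [mul_assoc, h.h5]
  have hf' : a * b * (a * b) = a * b := by rw [mul_assoc, h.h6]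
  have hfu : b * a * u = b * a := by rw [mul_assoc, h.h2]
  have huf : u * (b * a) = b * a := by rw [← mul_assoc, h.h3]
  have hfu' : a * b * u' = a * b := by rw [mul_assoc, h.h4]
  have huf' : u' * (a * b) = a * b := by rw [← mul_assoc, h.h1]
  obtain ⟨g, hg⟩ : ∃ g, g = u - b * a := ⟨_, rfl⟩
  obtain ⟨g', hg'⟩ : ∃ g', g' = u' - a * b := ⟨_, rfl⟩
  have hgE : g ∈ E := hg ▸ E.sub_mem hu (E.mul_mem h.hb h.ha)
  have hgE' : g' ∈ E := hg' ▸ E.sub_mem hu' (E.mul_mem h.ha h.hb)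
  have hgg : g * g = g := by
    rw [hg, sub_mul, mul_sub, mul_sub, hi, huf, hfu, hf, sub_self, sub_zero]
  have hgg' : g' * g' = g' := by
    rw [hg', sub_mul, mul_sub, mul_sub, hi', huf', hfu', hf', sub_self, sub_zero]
  have hug : u * g = g := by rw [hg, mul_sub, hi, huf]
  have hgu : g * u = g := by rw [hg, sub_mul, hi, hfu]
  have hug' : u' * g' = g' := by rw [hg', mul_sub, hi', huf']
  have hgu' : g' * u' = g' := by rw [hg', sub_mul, hi', hfu']
  have hfg : b * a * g = 0 := by rw [hg, mul_sub, hfu, hf, sub_self]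
  have hgf : g * (b * a) = 0 := by rw [hg, sub_mul, huf, hf, sub_self]
  have hfg' : a * b * g' = 0 := by rw [hg', mul_sub, hfu', hf', sub_self]
  have hgb : g * b = 0 := by rw [hg, sub_mul, h.h3, mul_assoc, h.h6, sub_self]
  have hga' : g' * a = 0 := by rw [hg', sub_mul, h.h1, mul_assoc, h.h5, sub_self]
  have hbg' : b * g' = 0 := by rw [← h.h6, mul_assoc, hfg', mul_zero]
  have hag : a * g = 0 := by rw [← h.h5, mul_assoc, hfg, mul_zero]
  have hg0 : g ≠ 0 := by
    intro h0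
    apply hne
    rw [hg] at h0
    exact (sub_eq_zero.mp h0).symm
  have hP := Pri_ideal E hgE
  have hex : ∃ x ∈ Fx (Pri E g) g', x ≠ 0 := by
    by_contra hcon
    push Not at hcon
    have e1 : Fx (Pri E g) u' ≤ Fx (Pri E g) (a * b) := by
      rintro x ⟨hx1, hx2⟩
      have h0 : g' * x = 0 := hcon _ ⟨hP.mul g' hgE' x hx1, by rw [← mul_assoc, hgg']⟩
      refine ⟨hx1, ?_⟩
      rw [hg', sub_mul, hx2] at h0
      exact (sub_eq_zero.mp h0).symm
    have e2 := Submodule.finrank_mono e1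
    rw [← hT _ hP, ← h.rank hP] at e2
    have e3 := Submodule.eq_of_le_of_finrank_le (h.le (Pri E g)) e2
    have e4 : g ∈ Fx (Pri E g) u := ⟨⟨1, E.one_mem, (one_mul _).symm⟩, hug⟩
    rw [← e3] at e4
    exact hg0 (by rw [← e4.2, hfg])
  obtain ⟨x, ⟨⟨y₀, hy₀, hxy₀⟩, hx2⟩, hx0⟩ := hex
  have hxE : x ∈ E := hxy₀ ▸ E.mul_mem hy₀ hgE
  have hxg : x * g = x := by rw [hxy₀, mul_assoc, hgg]
  obtain ⟨z₀, hz₀E, hz₀⟩ := hreg x hxE
  obtain ⟨z, hz⟩ : ∃ z, z = z₀ * x * z₀ := ⟨_, rfl⟩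
  have hzE : z ∈ E := hz ▸ E.mul_mem (E.mul_mem hz₀E hxE) hz₀E
  have hxzx : x * z * x = x := by
    rw [hz]
    calc x * (z₀ * x * z₀) * x = (x * z₀ * x) * z₀ * x := by simp only [mul_assoc]
      _ = x := by rw [hz₀, hz₀]
  have hzxz : z * x * z = z := by
    rw [hz]
    calc z₀ * x * z₀ * x * (z₀ * x * z₀) = z₀ * ((x * z₀ * x) * z₀ * x) * z₀ := by
          simp only [mul_assoc]
      _ = z₀ * x * z₀ := by rw [hz₀, hz₀]
  obtain ⟨y, hy⟩ : ∃ y, y = g * z * g' := ⟨_, rfl⟩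
  have hyE : y ∈ E := hy ▸ E.mul_mem (E.mul_mem hgE hzE) hgE'
  have hgy : g * y = y := by rw [hy, ← mul_assoc, ← mul_assoc, hgg]
  have hyg' : y * g' = y := by rw [hy, mul_assoc, hgg']
  have hxyx : x * (y * x) = x := by
    rw [hy]
    calc x * (g * z * g' * x) = (x * g) * z * (g' * x) := by simp only [mul_assoc]
      _ = x := by rw [hxg, hx2, hxzx]
  have hyxy : y * (x * y) = y := by
    rw [hy]
    calc g * z * g' * (x * (g * z * g')) = g * (z * ((g' * x) * g) * z) * g' := by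
          simp only [mul_assoc]
      _ = g * z * g' := by rw [hx2, hxg, hzxz]
  have hbx : b * x = 0 := by rw [← hx2, ← mul_assoc, hbg', zero_mul]
  have hay : a * y = 0 := by rw [← hgy, ← mul_assoc, hag, zero_mul]
  have hxb : x * b = 0 := by rw [← hxg, mul_assoc, hgb, mul_zero]
  have hya : y * a = 0 := by rw [← hyg', mul_assoc, hga', mul_zero]
  have hba : (b + y) * (a + x) = b * a + y * x := by
    rw [add_mul, mul_add, mul_add, hbx, hya, add_zero, zero_add]
  have hab : (a + x) * (b + y) = a * b + x * y := by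
    rw [add_mul, mul_add, mul_add, hay, hxb, add_zero, zero_add]
  have hxf : x * (b * a) = 0 := by rw [← mul_assoc, hxb, zero_mul]
  have hfy : b * a * y = 0 := by rw [mul_assoc, hay, mul_zero]
  refine ⟨a + x, b + y, ⟨E.add_mem h.ha hxE, E.add_mem h.hb hyE, ?_, ?_, ?_, ?_, ?_, ?_⟩, ?_⟩
  · rw [mul_add, h.h1, ← hx2, ← mul_assoc u', hug']
  · rw [add_mul, h.h2, ← hxg, mul_assoc, hgu]
  · rw [mul_add, h.h3, ← hgy, ← mul_assoc u, hug]
  · rw [add_mul, h.h4, ← hyg', mul_assoc, hgu']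
  · rw [hba, add_mul, mul_add, mul_add, h.h5, hxf, hxyx, ← mul_assoc a y, hay, zero_mul, add_zero,
      zero_add]
  · rw [hab, add_mul, mul_add, mul_add, h.h6, hyxy, ← mul_assoc b x, hbx, ← mul_assoc y a, hya,
      zero_mul, zero_mul, add_zero, zero_add]
  · rw [hba]
    apply Submodule.finrank_lt_finrank_of_lt
    refine lt_of_le_of_ne ?_ ?_
    · rintro z ⟨hz1, hz2⟩
      refine ⟨hz1, ?_⟩
      rw [add_mul, hz2, ← hz2, ← mul_assoc (y * x), mul_assoc y x, hxf]
      simp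
    · intro heq
      have hm : b * a + y * x ∈ Fx E.toSubmodule (b * a + y * x) := by
        refine ⟨E.add_mem (E.mul_mem h.hb h.ha) (E.mul_mem hyE hxE), ?_⟩
        rw [add_mul, mul_add, mul_add, hf, ← mul_assoc (b * a) y x, hfy, zero_mul, add_zero,
          mul_assoc y x (b * a), hxf, mul_zero, zero_add, mul_assoc y x (y * x), hxyx]
      rw [← heq] at hm
      have h0 := hm.2
      rw [mul_add, hf, ← mul_assoc (b * a) y x, hfy, zero_mul, add_zero] at h0
      have h1 : y * x = 0 := left_eq_add.mp h0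
      exact hx0 (by rw [← hxyx, h1, mul_zero])

/-- In a von Neumann regular algebra of finite dimension, two idempotents with
`dim u T = dim u' T` for all left ideals `T` are equivalent. -/
theorem equiv_of_dims [FiniteDimensional ℚ M] (hreg : ∀ x ∈ E, ∃ z ∈ E, x * z * x = x)
    (hu : u ∈ E) (hu' : u' ∈ E) (hi : u * u = u) (hi' : u' * u' = u')
    (hT : ∀ T, LIdeal E T → finrank ℚ (Fx T u) = finrank ℚ (Fx T u')) :
    ∃ a ∈ E, ∃ b ∈ E, u' * a = a ∧ a * u = a ∧ u * b = b ∧ b * u' = b ∧ b * a = u ∧ a * b = u' := by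
  have key : ∀ (m : ℕ) (a b : M), Par E u u' a b →
      finrank ℚ (Fx E.toSubmodule u) < finrank ℚ (Fx E.toSubmodule (b * a)) + m →
      ∃ a b, Par E u u' a b ∧ b * a = u := by
    intro m
    induction m with
    | zero =>
      intro a b h hlt
      have := Submodule.finrank_mono (h.le E.toSubmodule)
      omega
    | succ m ih =>
      intro a b h hlt
      by_cases hf : b * a = u
      · exact ⟨a, b, h, hf⟩
      · obtain ⟨a₁, b₁, h₁, hlt₁⟩ := h.step hreg hu hu' hi hi' hT hf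
        exact ih a₁ b₁ h₁ (by omega)
  obtain ⟨a, b, h, hba⟩ := key (finrank ℚ (Fx E.toSubmodule u) + 1) 0 0
    ⟨E.zero_mem, E.zero_mem, by simp, by simp, by simp, by simp, by simp, by simp⟩ (by omega)
  refine ⟨a, h.ha, b, h.hb, h.h1, h.h2, h.h3, h.h4, hba, ?_⟩
  have h1 := h.rank (top_ideal E)
  rw [hba, hT _ (top_ideal E)] at h1
  have h2 := Submodule.eq_of_le_of_finrank_le (h.symm.le E.toSubmodule) h1.le
  have h3 : u' ∈ Fx E.toSubmodule u' := ⟨hu', hi'⟩
  rw [← h2] at h3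
  rw [← h3.2, mul_assoc, h.h4]

end Pool.Agent.W539.Mot
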