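import Pool.Agent.W539.Mot.Defs

namespace Pool.Agent.W539.Mot

variable {n : ℕ}

theorem sum_I2 (g : ℤ → ℕ) (hg : ∀ k < 0, g k = 0) :
    ∑ k ∈ I2 n, g k = ∑ i ∈ Finset.range n, g (n - 2 - 4 * (i : ℤ)) := by
  classical
  rw [← Finset.sum_image (s := Finset.range n) (g := fun i : ℕ => (n : ℤ) - 2 - 4 * (i : ℤ))
    (f := g) (fun i _ j _ h => by
      have : (n : ℤ) - 2 - 4 * (i : ℤ) = (n : ℤ) - 2 - 4 * (j : ℤ) := h
      omega)]
  refine Finset.sum_subset ?_ ?_
  · intro k hk
    unfold I2 at hk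
    rw [Finset.mem_filter, Finset.mem_Icc] at hk
    rw [Finset.mem_image]
    refine ⟨((n - 2 - k) / 4).toNat, ?_, ?_⟩
    · rw [Finset.mem_range]
      omega
    · omega
  · intro k hk hk2
    rw [Finset.mem_image] at hk
    obtain ⟨i, hi, rfl⟩ := hk
    unfold I2 at hk2
    rw [Finset.mem_filter, Finset.mem_Icc] at hk2
    apply hg
    omega

theorem sum_I1 (g : ℤ → ℕ) (hg : ∀ k < 0, g k = 0) :
    ∑ k ∈ I1 n, g k = ∑ i ∈ Finset.range n, g (n - 1 - 2 * (i : ℤ)) := by
  classical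
  rw [← Finset.sum_image (s := Finset.range n) (g := fun i : ℕ => (n : ℤ) - 1 - 2 * (i : ℤ))
    (f := g) (fun i _ j _ h => by
      have : (n : ℤ) - 1 - 2 * (i : ℤ) = (n : ℤ) - 1 - 2 * (j : ℤ) := h
      omega)]
  refine Finset.sum_subset ?_ ?_
  · intro k hk
    unfold I1 at hk
    rw [Finset.mem_filter, Finset.mem_Icc] at hk
    rw [Finset.mem_image]
    refine ⟨((n - 1 - k) / 2).toNat, ?_, ?_⟩
    · rw [Finset.mem_range]
      omega
    · omega
  · intro k hk hk2
    rw [Finset.mem_image] at hk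
    obtain ⟨i, hi, rfl⟩ := hk
    unfold I1 at hk2
    rw [Finset.mem_filter, Finset.mem_Icc] at hk2
    apply hg
    omega

theorem sum_I3 (g : ℤ → ℕ) (hg : ∀ k < 0, g k = 0) (hs : ∀ i : ℕ, g (n + i) = g (n - i)) :
    ∑ k ∈ I3 n, g k = g n + 2 * ∑ i ∈ Finset.range n, g (n - 4 - 4 * (i : ℤ)) := by
  classical
  have h1 : ∑ k ∈ (Finset.range n).image (fun i : ℕ => (n : ℤ) - 4 - 4 * (i : ℤ)), g k =
      ∑ i ∈ Finset.range n, g (n - 4 - 4 * (i : ℤ)) :=
    Finset.sum_image (fun i _ j _ h => by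
      have : (n : ℤ) - 4 - 4 * (i : ℤ) = (n : ℤ) - 4 - 4 * (j : ℤ) := h
      omega)
  have h2 : ∑ k ∈ (Finset.range n).image (fun i : ℕ => (n : ℤ) + 4 + 4 * (i : ℤ)), g k =
      ∑ i ∈ Finset.range n, g (n - 4 - 4 * (i : ℤ)) := by
    rw [Finset.sum_image (fun i _ j _ h => by
      have : (n : ℤ) + 4 + 4 * (i : ℤ) = (n : ℤ) + 4 + 4 * (j : ℤ) := h
      omega)]
    refine Finset.sum_congr rfl fun i _ => ?_
    have := hs (4 + 4 * i)
    rw [show (n : ℤ) + 4 + 4 * (i : ℤ) = n + ((4 + 4 * i : ℕ) : ℤ) by push_cast; ring, this]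
    congr 1
    push_cast
    ring
  have h3 : ∑ k ∈ I3 n, g k = ∑ k ∈ ({(n : ℤ)} ∪
      ((Finset.range n).image (fun i : ℕ => (n : ℤ) - 4 - 4 * (i : ℤ)) ∪
      (Finset.range n).image (fun i : ℕ => (n : ℤ) + 4 + 4 * (i : ℤ)))), g k := by
    refine Finset.sum_subset ?_ ?_
    · intro k hk
      unfold I3 at hk
      rw [Finset.mem_filter, Finset.mem_Icc] at hk
      rw [Finset.mem_union, Finset.mem_union, Finset.mem_singleton, Finset.mem_image,
        Finset.mem_image]
      rcases lt_trichotomy k n with h | h | h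
      · refine Or.inr (Or.inl ⟨((n - 4 - k) / 4).toNat, ?_, ?_⟩)
        · rw [Finset.mem_range]
          omega
        · omega
      · exact Or.inl h
      · refine Or.inr (Or.inr ⟨((k - n - 4) / 4).toNat, ?_, ?_⟩)
        · rw [Finset.mem_range]
          omega
        · omega
    · intro k hk hk2
      unfold I3 at hk2
      rw [Finset.mem_filter, Finset.mem_Icc] at hk2
      rw [Finset.mem_union, Finset.mem_union, Finset.mem_singleton, Finset.mem_image,
        Finset.mem_image] at hk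
      rcases hk with rfl | ⟨i, hi, rfl⟩ | ⟨i, hi, rfl⟩
      · exfalso
        apply hk2
        omega
      · apply hg
        omega
      · have := hs (4 + 4 * i)
        rw [show (n : ℤ) + 4 + 4 * (i : ℤ) = n + ((4 + 4 * i : ℕ) : ℤ) by push_cast; ring, this]
        apply hg
        push_cast
        omega
  rw [h3, Finset.sum_union, Finset.sum_union, Finset.sum_singleton, h1, h2]
  · ring
  · rw [Finset.disjoint_left]
    intro k hk hk2
    rw [Finset.mem_image] at hk hk2
    obtain ⟨i, _, rfl⟩ := hk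
    obtain ⟨j, _, hj⟩ := hk2
    have : (n : ℤ) + 4 + 4 * (j : ℤ) = (n : ℤ) - 4 - 4 * (i : ℤ) := hj
    omega
  · rw [Finset.disjoint_left]
    intro k hk hk2
    rw [Finset.mem_singleton] at hk
    subst hk
    rw [Finset.mem_union, Finset.mem_image, Finset.mem_image] at hk2
    rcases hk2 with ⟨i, _, hi⟩ | ⟨i, _, hi⟩
    · have : (n : ℤ) - 4 - 4 * (i : ℤ) = n := hi
      omega
    · have : (n : ℤ) + 4 + 4 * (i : ℤ) = n := hi
      omega

/-- The degrees of the parity of `n - r`. -/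
noncomputable def Ip (n : ℕ) (r : ℤ) : Finset ℤ := {k ∈ Finset.Icc (0 : ℤ) (2 * n) | (n - k) % 2 = r}

theorem sum_Ip (g : ℤ → ℕ) (hs : ∀ i : ℕ, g (n + i) = g (n - i)) :
    ∑ k ∈ Ip n 1, g k = 2 * ∑ k ∈ I1 n, g k := by
  classical
  have h1 : Ip n 1 = I1 n ∪ (I1 n).image (fun k => 2 * (n : ℤ) - k) := by
    ext k
    unfold Ip I1
    rw [Finset.mem_union, Finset.mem_image, Finset.mem_filter, Finset.mem_filter, Finset.mem_Icc,
      Finset.mem_Icc]
    constructor
    · rintro ⟨h1, h2⟩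
      rcases lt_trichotomy k n with h | h | h
      · left
        omega
      · omega
      · right
        refine ⟨2 * n - k, ?_, by omega⟩
        rw [Finset.mem_filter, Finset.mem_Icc]
        omega
    · rintro (h | ⟨l, hl, hlk⟩)
      · omega
      · rw [Finset.mem_filter, Finset.mem_Icc] at hl
        omega
  rw [h1, Finset.sum_union, Finset.sum_image (fun i _ j _ h => by
      have : 2 * (n : ℤ) - i = 2 * (n : ℤ) - j := h
      omega)]
  · have h2 : ∑ k ∈ I1 n, g (2 * n - k) = ∑ k ∈ I1 n, g k := by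
      refine Finset.sum_congr rfl fun k hk => ?_
      unfold I1 at hk
      rw [Finset.mem_filter, Finset.mem_Icc] at hk
      have := hs (n - k).toNat
      rw [show (n : ℤ) + ((n - k).toNat : ℤ) = 2 * n - k by omega,
        show (n : ℤ) - ((n - k).toNat : ℤ) = k by omega] at this
      exact this
    rw [h2]
    ring
  · rw [Finset.disjoint_left]
    intro k hk hk2
    rw [Finset.mem_image] at hk2
    obtain ⟨l, hl, hlk⟩ := hk2
    unfold I1 at hk hl
    rw [Finset.mem_filter, Finset.mem_Icc] at hk hl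
    omega

end Pool.Agent.W539.Mot
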