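import Pool.Agent.W539.Mot.Mod
import Pool.Agent.W539.Mot.Reg
import Pool.Agent.W539.Mot.Pos
import Pool.Agent.W539.Mot.Sums

namespace Pool.Agent.W539.Mot

open Module

variable {n : ℕ} (D : HomMot n)

namespace HomMot

theorem lid {T : Submodule ℚ (Module.End ℚ D.V)} (h : LIdeal D.E T) : D.LId T := ⟨h.le, h.mul⟩

theorem P_mem (I : Finset ℤ) : D.P I ∈ D.E := by
  unfold HomMot.P
  exact Subalgebra.sum_mem _ fun k _ => D.π_mem _

theorem P_π (I : Finset ℤ) (k : ℤ) : D.P I * D.π k = if k ∈ I then D.π k else 0 := by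
  unfold HomMot.P
  rw [Finset.sum_mul]
  split_ifs with h
  · rw [Finset.sum_eq_single k]
    · exact D.π_idem k
    · intro l _ hl
      exact D.π_orth hl
    · intro h'
      exact absurd h h'
  · refine Finset.sum_eq_zero fun l hl => D.π_orth ?_
    rintro rfl
    exact h hl

theorem P_idem (I : Finset ℤ) : D.P I * D.P I = D.P I := by
  refine D.ext_π fun k => ?_
  rw [mul_assoc, P_π]
  split_ifs with h
  · rw [P_π, if_pos h]
  · rw [mul_zero]

theorem P_comm (I : Finset ℤ) {p : Module.End ℚ D.V} (hp : D.Pj p) :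
    D.P I * p = p * D.P I := by
  unfold HomMot.P
  rw [Finset.sum_mul, Finset.mul_sum]
  exact Finset.sum_congr rfl fun k _ => hp.comm_π k

theorem Pp_idem (I : Finset ℤ) {p : Module.End ℚ D.V} (hp : D.Pj p) :
    D.P I * p * (D.P I * p) = D.P I * p := by
  rw [mul_assoc, ← mul_assoc p, ← D.P_comm I hp, mul_assoc, hp.idem, ← mul_assoc, D.P_idem]

theorem P_apply (I : Finset ℤ) (k : ℤ) (v : D.V) (hv : v ∈ D.G k) :
    D.P I v = if k ∈ I then v else 0 := by
  have h := congrArg (fun x : Module.End ℚ D.V => x v) (D.P_π I k)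
  simp only [Module.End.mul_apply, D.π_spec k v hv] at h
  rw [h]
  split_ifs
  · exact D.π_spec k v hv
  · rfl

/-- `dim` of the part of degree `k`. -/
noncomputable def td (T : Submodule ℚ (Module.End ℚ D.V)) (p : Module.End ℚ D.V) (k : ℤ) : ℕ :=
  finrank ℚ (D.H T p k)

theorem H_indep (T : Submodule ℚ (Module.End ℚ D.V)) (p : Module.End ℚ D.V) :
    iSupIndep (fun k => D.H T p k) := by
  intro i
  rw [Submodule.disjoint_def]
  intro x hx hx2
  have h1 : (⨆ (j : ℤ) (_ : j ≠ i), D.H T p j) ≤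
      LinearMap.ker (LinearMap.mulLeft ℚ (D.π i)) := by
    refine iSup₂_le fun j hj y hy => ?_
    rw [LinearMap.mem_ker, LinearMap.mulLeft_apply, ← hy.2.2, ← mul_assoc,
      D.π_orth (Ne.symm hj), zero_mul]
  have h2 := h1 hx2
  rw [LinearMap.mem_ker, LinearMap.mulLeft_apply, hx.2.2] at h2
  exact h2

theorem Fx_eq {T : Submodule ℚ (Module.End ℚ D.V)} (hT : D.LId T) {p : Module.End ℚ D.V}
    (hp : D.Pj p) (I : Finset ℤ) : Fx T (D.P I * p) = ⨆ k ∈ I, D.H T p k := by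
  apply le_antisymm
  · rintro x ⟨hx1, hx2⟩
    have hpx : p * x = x := by
      rw [← hx2, D.P_comm I hp, ← mul_assoc, ← mul_assoc, hp.idem]
    have hx3 : ∑ k ∈ I, D.π k * x = x := by
      rw [mul_assoc, hpx] at hx2
      unfold HomMot.P at hx2
      rw [Finset.sum_mul] at hx2
      exact hx2
    rw [← hx3]
    refine Submodule.sum_mem _ fun k hk => ?_
    have hle : D.H T p k ≤ ⨆ k ∈ I, D.H T p k :=
      le_iSup₂ (f := fun k (_ : k ∈ I) => D.H T p k) k hk
    apply hle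
    refine ⟨hT.mul _ (D.π_mem k) x hx1, ?_, ?_⟩
    · rw [← mul_assoc, ← hp.comm_π, mul_assoc, hpx]
    · rw [← mul_assoc, D.π_idem]
  · refine iSup₂_le fun k hk => ?_
    rintro x ⟨h1, h2, h3⟩
    refine ⟨h1, ?_⟩
    rw [mul_assoc, h2, ← h3, ← mul_assoc, P_π, if_pos hk]

theorem finrank_Fx {T : Submodule ℚ (Module.End ℚ D.V)} (hT : D.LId T) {p : Module.End ℚ D.V}
    (hp : D.Pj p) (I : Finset ℤ) : finrank ℚ (Fx T (D.P I * p)) = ∑ k ∈ I, D.td T p k := by
  rw [D.Fx_eq hT hp, finrank_iSup_finset _ (D.H_indep T p)]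
  rfl

theorem td_out (T : Submodule ℚ (Module.End ℚ D.V)) (p : Module.End ℚ D.V) {k : ℤ}
    (hk : k < 0) : D.td T p k = 0 := by
  unfold td
  rw [D.H_bot T p (Or.inl hk), finrank_bot]

theorem td_symm {T : Submodule ℚ (Module.End ℚ D.V)} (hT : D.LId T) {p : Module.End ℚ D.V}
    (hp : D.Pj p) (i : ℕ) : D.td T p (n + i) = D.td T p (n - i) := by
  let f : D.H T p (n - i) →ₗ[ℚ] D.H T p (n + i) :=
    { toFun := fun x => ⟨D.L ^ i * x, by
        have := D.H_L hT hp x.2 i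
        have e : (n : ℤ) - i + 2 * i = n + i := by ring
        rwa [e] at this⟩
      map_add' := fun x y => by ext; simp [mul_add]
      map_smul' := fun c x => by ext; simp }
  refine (LinearEquiv.ofBijective f ⟨?_, ?_⟩).finrank_eq.symm
  · rw [injective_iff_map_eq_zero]
    intro x hx
    exact Subtype.ext (D.H_inj i (fun v => H_G x.2 v) (congrArg Subtype.val hx))
  · intro y
    obtain ⟨x, hx, hxy⟩ := D.H_surj hT hp i y.2
    exact ⟨⟨x, hx⟩, Subtype.ext hxy⟩

theorem par_of_isoSum {I : Finset ℤ} {a b : Module.End ℚ D.V} (ha : a ∈ D.E) (hb : b ∈ D.E)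
    (h1 : a = D.P I * D.e' * a) (h2 : b = D.P I * D.e * b) (h3 : b * a = D.P I * D.e)
    (h4 : a * b = D.P I * D.e') : Par D.E (D.P I * D.e) (D.P I * D.e') a b where
  ha := ha
  hb := hb
  h1 := h1.symm
  h2 := by rw [← h3, ← mul_assoc, h4, ← h1]
  h3 := h2.symm
  h4 := by rw [← h4, ← mul_assoc, h3, ← h2]
  h5 := by rw [← mul_assoc, h4, ← h1]
  h6 := by rw [← mul_assoc, h3, ← h2]

theorem sum_td_of_isoSum {I : Finset ℤ} (h : D.IsoSum I)
    {T : Submodule ℚ (Module.End ℚ D.V)} (hT : LIdeal D.E T) :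
    ∑ k ∈ I, D.td T D.e k = ∑ k ∈ I, D.td T D.e' k := by
  obtain ⟨a, ha, b, hb, h1, h2, h3, h4⟩ := h
  have := (D.par_of_isoSum ha hb h1 h2 h3 h4).rank hT
  rw [h3, h4, D.finrank_Fx (D.lid hT) D.pj_e, D.finrank_Fx (D.lid hT) D.pj_e'] at this
  exact this

theorem isoSum_of_td {I : Finset ℤ} (h : ∀ T, LIdeal D.E T →
    ∑ k ∈ I, D.td T D.e k = ∑ k ∈ I, D.td T D.e' k) : D.IsoSum I := by
  obtain ⟨a, ha, b, hb, h1, h2, h3, h4, h5, h6⟩ := equiv_of_dims (E := D.E)
    (u := D.P I * D.e) (u' := D.P I * D.e') D.regular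
    (D.E.mul_mem (D.P_mem I) D.e_mem) (D.E.mul_mem (D.P_mem I) D.e'_mem)
    (D.Pp_idem I D.pj_e) (D.Pp_idem I D.pj_e') (fun T hT => by
      rw [D.finrank_Fx (D.lid hT) D.pj_e, D.finrank_Fx (D.lid hT) D.pj_e']
      exact h T hT)
  exact ⟨a, ha, b, hb, h1.symm, h3.symm, h5, h6⟩

/-- Correspondences preserve the parity of the degree. -/
theorem Ip_comm {x : Module.End ℚ D.V} (hx : x ∈ D.E) (r : ℤ) :
    D.P (Ip n r) * x = x * D.P (Ip n r) := by
  have key : ∀ k : ℤ, ∀ w ∈ ⨆ j : ℤ, D.G (k + 2 * j),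
      D.P (Ip n r) w = if (n - k) % 2 = r then w else 0 := by
    intro k w hw
    have h1 : ∀ l : ℤ, (n - l) % 2 = (n - k) % 2 → ∀ w ∈ D.G l,
        D.P (Ip n r) w = if (n - k) % 2 = r then w else 0 := by
      intro l hl w hw
      rw [D.P_apply _ l w hw]
      by_cases hrange : 0 ≤ l ∧ l ≤ 2 * n
      · have : l ∈ Ip n r ↔ (n - k) % 2 = r := by
          unfold Ip
          rw [Finset.mem_filter, Finset.mem_Icc, hl]
          exact ⟨fun h => h.2, fun h => ⟨hrange, h⟩⟩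
        by_cases h : l ∈ Ip n r
        · rw [if_pos h, if_pos (this.mp h)]
        · rw [if_neg h, if_neg (fun h' => h (this.mpr h'))]
      · have hb : D.G l = ⊥ := by
          rcases not_and_or.mp hrange with h | h
          · exact D.van l (by omega)
          · exact D.van_big l (by omega)
        rw [hb] at hw
        rw [(Submodule.mem_bot ℚ).mp hw]
        simp
    by_cases h : (n - k) % 2 = r
    · rw [if_pos h]
      have hle : (⨆ j : ℤ, D.G (k + 2 * j)) ≤ LinearMap.ker (D.P (Ip n r) - 1) := by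
        refine iSup_le fun j w hw => ?_
        rw [LinearMap.mem_ker, LinearMap.sub_apply, h1 (k + 2 * j) (by omega) w hw, if_pos h,
          Module.End.one_apply, sub_self]
      have := hle hw
      rw [LinearMap.mem_ker, LinearMap.sub_apply, Module.End.one_apply] at this
      exact sub_eq_zero.mp this
    · rw [if_neg h]
      have hle : (⨆ j : ℤ, D.G (k + 2 * j)) ≤ LinearMap.ker (D.P (Ip n r)) := by
        refine iSup_le fun j w hw => ?_
        rw [LinearMap.mem_ker, h1 (k + 2 * j) (by omega) w hw, if_neg h]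
      exact hle hw
  refine D.ext_G fun k v hv => ?_
  rw [Module.End.mul_apply, Module.End.mul_apply, key k _ (D.even x hx k v hv), key k v (by
    have : D.G k ≤ ⨆ j : ℤ, D.G (k + 2 * j) := by
      have := le_iSup (fun j : ℤ => D.G (k + 2 * j)) 0
      simpa using this
    exact this hv)]
  split_ifs <;> simp

variable {D} in
theorem IsFM.e_σ {F : Module.End ℚ D.V} (h : D.IsFM F) :
    D.e * D.σ F = D.σ F * D.e' := by
  rw [← h.2.2.1, ← h.2.2.2, mul_assoc]

variable {D} in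
theorem IsFM.F_e {F : Module.End ℚ D.V} (h : D.IsFM F) : F * D.e = F := by
  conv_rhs => rw [h.2.1]
  conv_lhs => rw [h.2.1]
  rw [mul_assoc, D.e_idem]

variable {D} in
theorem IsFM.e_F {F : Module.End ℚ D.V} (h : D.IsFM F) : D.e' * F = F := by
  conv_rhs => rw [h.2.1]
  conv_lhs => rw [h.2.1]
  rw [← mul_assoc, ← mul_assoc, D.e'_idem]

variable {D} in
theorem IsFM.isoSum_Ip {F : Module.End ℚ D.V} (h : D.IsFM F) (r : ℤ) :
    D.IsoSum (Ip n r) := by
  have hF := h.1
  have hσ := D.σ_mem hF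
  have c1 := D.Ip_comm hF r
  have c2 := D.Ip_comm hσ r
  have c3 : D.P (Ip n r) * D.e' = D.e' * D.P (Ip n r) := D.P_comm _ D.pj_e'
  have c4 : D.P (Ip n r) * D.e = D.e * D.P (Ip n r) := D.P_comm _ D.pj_e
  have hi := D.P_idem (Ip n r)
  refine ⟨D.P (Ip n r) * F, D.E.mul_mem (D.P_mem _) hF, D.P (Ip n r) * D.e * D.σ F,
    D.E.mul_mem (D.E.mul_mem (D.P_mem _) D.e_mem) hσ, ?_, ?_, ?_, ?_⟩
  · rw [mul_assoc, ← mul_assoc D.e', ← c3, mul_assoc (D.P (Ip n r)) D.e', h.e_F, ← mul_assoc, hi]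
  · rw [← mul_assoc, D.Pp_idem _ D.pj_e]
  · calc D.P (Ip n r) * D.e * D.σ F * (D.P (Ip n r) * F)
        = D.P (Ip n r) * D.e * (D.σ F * D.P (Ip n r)) * F := by simp only [mul_assoc]
      _ = D.P (Ip n r) * (D.e * D.P (Ip n r)) * (D.σ F * F) := by
          rw [← c2]; simp only [mul_assoc]
      _ = D.P (Ip n r) * D.e := by
          rw [← c4, h.2.2.1, ← mul_assoc, hi, mul_assoc, D.e_idem]
  · calc D.P (Ip n r) * F * (D.P (Ip n r) * D.e * D.σ F)
        = D.P (Ip n r) * (F * D.P (Ip n r)) * (D.e * D.σ F) := by simp only [mul_assoc]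
      _ = (D.P (Ip n r) * D.P (Ip n r)) * (F * D.e) * D.σ F := by
          rw [← c1]; simp only [mul_assoc]
      _ = D.P (Ip n r) * D.e' := by
          rw [hi, h.F_e, mul_assoc, h.2.2.2]

theorem sup_W {T : Submodule ℚ (Module.End ℚ D.V)} (hT : D.LId T) {p : Module.End ℚ D.V}
    (hp : D.Pj p) : (⨆ i : ℤ, D.H T p (n + 2 * i)) = Fx T (D.P (Ip n 0) * p) := by
  rw [D.Fx_eq hT hp]
  apply le_antisymm
  · refine iSup_le fun i => ?_
    by_cases h : n + 2 * i ∈ Ip n 0
    · exact le_iSup₂ (f := fun k (_ : k ∈ Ip n 0) => D.H T p k) (n + 2 * i) h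
    · unfold Ip at h
      rw [Finset.mem_filter, Finset.mem_Icc] at h
      rw [D.H_bot T p (by omega)]
      exact bot_le
  · refine iSup₂_le fun k hk => ?_
    unfold Ip at hk
    rw [Finset.mem_filter, Finset.mem_Icc] at hk
    have := le_iSup (fun i : ℤ => D.H T p (n + 2 * i)) ((k - n) / 2)
    have e : (n : ℤ) + 2 * ((k - n) / 2) = k := by omega
    simp only [e] at this
    exact this

variable {D} in
theorem IsFM.isom {F : Module.End ℚ D.V} (h : D.IsFM F)
    {T : Submodule ℚ (Module.End ℚ D.V)} (hT : D.LId T) :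
    Isom (LinearMap.mulLeft ℚ F) D.bf (fun i => D.H T D.e (n + 2 * i))
      (fun i => D.H T D.e' (n + 2 * i)) := by
  have hF := h.1
  have hσ := D.σ_mem hF
  have c1 := D.Ip_comm hF 0
  have c2 := D.Ip_comm hσ 0
  have fixp : ∀ p, D.Pj p → ∀ x ∈ Fx T (D.P (Ip n 0) * p), p * x = x ∧ D.P (Ip n 0) * x = x := by
    rintro p hp x ⟨hx1, hx2⟩
    constructor
    · rw [← hx2, D.P_comm _ hp, ← mul_assoc, ← mul_assoc, hp.idem]
    · rw [← hx2, ← mul_assoc, ← mul_assoc, D.P_idem]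
  have htF : D.t F * D.δ * F = D.δ * D.e := by
    have h1 := h.2.2.1
    unfold HomMot.σ at h1
    rw [← h1]
    calc D.t F * D.δ * F = (D.δ * D.δ) * (D.t F * D.δ * F) := by rw [D.δ_δ, one_mul]
      _ = _ := by simp only [mul_assoc]
  refine ⟨?_, ?_, ?_⟩
  · rw [D.sup_W hT D.pj_e, D.sup_W hT D.pj_e']
    apply le_antisymm
    · rintro _ ⟨x, hx, rfl⟩
      obtain ⟨h1, h2⟩ := fixp _ D.pj_e x hx
      refine ⟨hT.mul F hF x hx.1, ?_⟩
      rw [LinearMap.mulLeft_apply, mul_assoc, ← mul_assoc D.e', h.e_F, ← mul_assoc, c1, mul_assoc,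
        h2]
    · intro y hy
      obtain ⟨h1, h2⟩ := fixp _ D.pj_e' y hy
      refine ⟨D.σ F * y, ⟨hT.mul _ hσ y hy.1, ?_⟩, ?_⟩
      · rw [mul_assoc, ← mul_assoc D.e, h.e_σ, mul_assoc (D.σ F), h1, ← mul_assoc, c2, mul_assoc,
          h2]
      · rw [LinearMap.mulLeft_apply, ← mul_assoc, h.2.2.2, h1]
  · intro x hx h0
    rw [D.sup_W hT D.pj_e] at hx
    obtain ⟨h1, h2⟩ := fixp _ D.pj_e x hx
    rw [LinearMap.mulLeft_apply] at h0
    rw [← h1, ← h.2.2.1, mul_assoc, h0, mul_zero]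
  · intro x hx
    rw [D.sup_W hT D.pj_e] at hx
    obtain ⟨h1, h2⟩ := fixp _ D.pj_e x hx
    rw [LinearMap.mulLeft_apply, bf_apply, bf_apply, b0_apply, b0_apply, D.t_mul]
    have e : D.t x * D.t F * D.δ * (F * x) * D.s = D.t x * (D.t F * D.δ * F) * x * D.s := by
      simp only [mul_assoc]
    rw [e, htF]
    have e2 : D.t x * (D.δ * D.e) * x * D.s = D.t x * D.δ * (D.e * x) * D.s := by
      simp only [mul_assoc]
    rw [e2, h1]

variable {D} in
theorem IsFM.sums {F : Module.End ℚ D.V} (h : D.IsFM F)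
    {T : Submodule ℚ (Module.End ℚ D.V)} (hT : LIdeal D.E T) :
    (∑ i ∈ Finset.range n, D.td T D.e (n - 2 - 4 * (i : ℤ)) =
      ∑ i ∈ Finset.range n, D.td T D.e' (n - 2 - 4 * (i : ℤ))) ∧
    (D.td T D.e n + 2 * ∑ i ∈ Finset.range n, D.td T D.e (n - 4 - 4 * (i : ℤ)) =
      D.td T D.e' n + 2 * ∑ i ∈ Finset.range n, D.td T D.e' (n - 4 - 4 * (i : ℤ))) := by
  have hT' := D.lid hT
  have := Isom.sums (K := n) (h.isom hT') (D.lhr hT' D.pj_e) (D.lhr hT' D.pj_e') D.bf_symm D.bf_L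
  have a1 : ∀ (p : Module.End ℚ D.V) (i : ℕ),
      dm (fun i => D.H T p (n + 2 * i)) (2 * i + 1) = D.td T p (n - 2 - 4 * (i : ℤ)) := by
    intro p i
    unfold dm td
    have e : (n : ℤ) + 2 * (-((2 * i + 1 : ℕ) : ℤ)) = n - 2 - 4 * i := by push_cast; ring
    show finrank ℚ (D.H T p _) = _
    rw [e]
  have a2 : ∀ (p : Module.End ℚ D.V) (i : ℕ),
      dm (fun i => D.H T p (n + 2 * i)) (2 * i + 2) = D.td T p (n - 4 - 4 * (i : ℤ)) := by
    intro p i
    unfold dm td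
    have e : (n : ℤ) + 2 * (-((2 * i + 2 : ℕ) : ℤ)) = n - 4 - 4 * i := by push_cast; ring
    show finrank ℚ (D.H T p _) = _
    rw [e]
  have a3 : ∀ (p : Module.End ℚ D.V),
      dm (fun i => D.H T p (n + 2 * i)) 0 = D.td T p n := by
    intro p
    unfold dm td
    have e : (n : ℤ) + 2 * (-((0 : ℕ) : ℤ)) = n := by push_cast; ring
    show finrank ℚ (D.H T p _) = _
    rw [e]
  simp only [a1, a2, a3] at this
  exact this

variable {D} in
theorem IsFM.iso1 {F : Module.End ℚ D.V} (h : D.IsFM F) : D.IsoSum (I1 n) := by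
  refine D.isoSum_of_td fun T hT => ?_
  have h1 := D.sum_td_of_isoSum (h.isoSum_Ip 1) hT
  rw [sum_Ip _ (D.td_symm (D.lid hT) D.pj_e), sum_Ip _ (D.td_symm (D.lid hT) D.pj_e')] at h1
  omega

variable {D} in
theorem IsFM.iso2 {F : Module.End ℚ D.V} (h : D.IsFM F) : D.IsoSum (I2 n) := by
  refine D.isoSum_of_td fun T hT => ?_
  rw [sum_I2 _ (fun k hk => D.td_out T D.e hk), sum_I2 _ (fun k hk => D.td_out T D.e' hk)]
  exact (h.sums hT).1

variable {D} in
theorem IsFM.iso3 {F : Module.End ℚ D.V} (h : D.IsFM F) : D.IsoSum (I3 n) := by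
  refine D.isoSum_of_td fun T hT => ?_
  rw [sum_I3 _ (fun k hk => D.td_out T D.e hk) (D.td_symm (D.lid hT) D.pj_e),
    sum_I3 _ (fun k hk => D.td_out T D.e' hk) (D.td_symm (D.lid hT) D.pj_e')]
  exact (h.sums hT).2

theorem td_of_isoDeg {k : ℤ} (h : D.IsoDeg k) {T : Submodule ℚ (Module.End ℚ D.V)}
    (hT : LIdeal D.E T) : D.td T D.e k = D.td T D.e' k := by
  have := D.sum_td_of_isoSum h hT
  rwa [Finset.sum_singleton, Finset.sum_singleton] at this

theorem isoDeg_of_td {k : ℤ} (h : ∀ T, LIdeal D.E T → D.td T D.e k = D.td T D.e' k) :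
    D.IsoDeg k :=
  D.isoSum_of_td fun T hT => by
    rw [Finset.sum_singleton, Finset.sum_singleton]
    exact h T hT

variable {D} in
/-- The degrees `n - 2`, `n - 1` and `n` are determined by the lower ones. -/
theorem IsFM.isoDeg {F : Module.End ℚ D.V} (h : D.IsFM F)
    (hlow : ∀ k : ℤ, 0 ≤ k → k ≤ n - 3 → D.IsoDeg k) (k : ℤ) : D.IsoDeg k := by
  refine D.isoDeg_of_td fun T hT => ?_
  have hT' := D.lid hT
  obtain ⟨s1, s2⟩ := h.sums hT
  have s3 := D.sum_td_of_isoSum h.iso1 hT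
  rw [sum_I1 _ (fun k hk => D.td_out T D.e hk), sum_I1 _ (fun k hk => D.td_out T D.e' hk)] at s3
  have low : ∀ k : ℤ, k ≤ n - 3 → D.td T D.e k = D.td T D.e' k := by
    intro k hk
    rcases lt_or_ge k 0 with h0 | h0
    · rw [D.td_out T _ h0, D.td_out T _ h0]
    · exact D.td_of_isoDeg (hlow k h0 hk) hT
  have m2 : D.td T D.e (n - 2) = D.td T D.e' (n - 2) := by
    rcases Nat.eq_zero_or_pos n with rfl | hn
    · rw [D.td_out T _ (by simp), D.td_out T _ (by simp)]
    · obtain ⟨m, hm⟩ : ∃ m, n = m + 1 := ⟨n - 1, by omega⟩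
      have e : ∀ f : ℕ → ℕ, ∑ i ∈ Finset.range n, f i = ∑ i ∈ Finset.range m, f (i + 1) + f 0 := by
        intro f
        rw [hm, Finset.sum_range_succ']
      rw [e, e] at s1
      have e2 : ∑ i ∈ Finset.range m, D.td T D.e (n - 2 - 4 * ((i + 1 : ℕ) : ℤ)) =
          ∑ i ∈ Finset.range m, D.td T D.e' (n - 2 - 4 * ((i + 1 : ℕ) : ℤ)) :=
        Finset.sum_congr rfl fun i _ => low _ (by push_cast; omega)
      rw [e2] at s1
      have e3 := Nat.add_left_cancel s1
      simpa using e3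
  have m1 : D.td T D.e (n - 1) = D.td T D.e' (n - 1) := by
    rcases Nat.eq_zero_or_pos n with rfl | hn
    · rw [D.td_out T _ (by simp), D.td_out T _ (by simp)]
    · obtain ⟨m, hm⟩ : ∃ m, n = m + 1 := ⟨n - 1, by omega⟩
      have e : ∀ f : ℕ → ℕ, ∑ i ∈ Finset.range n, f i = ∑ i ∈ Finset.range m, f (i + 1) + f 0 := by
        intro f
        rw [hm, Finset.sum_range_succ']
      rw [e, e] at s3
      have e2 : ∑ i ∈ Finset.range m, D.td T D.e (n - 1 - 2 * ((i + 1 : ℕ) : ℤ)) =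
          ∑ i ∈ Finset.range m, D.td T D.e' (n - 1 - 2 * ((i + 1 : ℕ) : ℤ)) :=
        Finset.sum_congr rfl fun i _ => low _ (by push_cast; omega)
      rw [e2] at s3
      have e3 := Nat.add_left_cancel s3
      simpa using e3
  have m0 : D.td T D.e n = D.td T D.e' n := by
    have e2 : ∑ i ∈ Finset.range n, D.td T D.e (n - 4 - 4 * (i : ℤ)) =
        ∑ i ∈ Finset.range n, D.td T D.e' (n - 4 - 4 * (i : ℤ)) :=
      Finset.sum_congr rfl fun i _ => low _ (by omega)
    rw [e2] at s2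
    exact Nat.add_right_cancel s2
  have all : ∀ k : ℤ, k ≤ n → D.td T D.e k = D.td T D.e' k := by
    intro k hk
    rcases lt_or_ge k (n - 2) with h1 | h1
    · exact low k (by omega)
    · have : k = n - 2 ∨ k = n - 1 ∨ k = n := by omega
      rcases this with rfl | rfl | rfl
      · exact m2
      · exact m1
      · exact m0
  rcases le_or_gt k n with hk | hk
  · exact all k hk
  · have h1 := D.td_symm hT' D.pj_e (k - n).toNat
    have h2 := D.td_symm hT' D.pj_e' (k - n).toNat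
    rw [show (n : ℤ) + ((k - n).toNat : ℤ) = k by omega] at h1 h2
    rw [h1, h2]
    exact all _ (by omega)

end HomMot

end Pool.Agent.W539.Mot
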