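import Pool.Agent.W539.Mot.LHR

namespace Pool.Agent.W539.Mot

open Module

variable {M : Type} [AddCommGroup M] [Module ℚ M] [FiniteDimensional ℚ M]
variable {L : M →ₗ[ℚ] M} {b : LinearMap.BilinForm ℚ M} {N : ℕ} {W W' : ℤ → Submodule ℚ M}

/-- positive indices `1, …, N` -/
def sp (N : ℕ) : Finset ℤ := (Finset.range N).image (fun j : ℕ => (j : ℤ) + 1)

/-- negative indices `-1, …, -N` -/
def sm (N : ℕ) : Finset ℤ := (Finset.range N).image (fun j : ℕ => -((j : ℤ) + 1))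

theorem mem_sp {N : ℕ} {k : ℤ} : k ∈ sp N ↔ 1 ≤ k ∧ k ≤ N := by
  unfold sp
  rw [Finset.mem_image]
  constructor
  · rintro ⟨j, hj, rfl⟩
    rw [Finset.mem_range] at hj
    omega
  · rintro ⟨h1, h2⟩
    refine ⟨(k - 1).toNat, ?_, ?_⟩
    · rw [Finset.mem_range]; omega
    · omega

theorem mem_sm {N : ℕ} {k : ℤ} : k ∈ sm N ↔ k ≤ -1 ∧ -(N : ℤ) ≤ k := by
  unfold sm
  rw [Finset.mem_image]
  constructor
  · rintro ⟨j, hj, rfl⟩
    rw [Finset.mem_range] at hj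
    omega
  · rintro ⟨h1, h2⟩
    refine ⟨(-k - 1).toNat, ?_, ?_⟩
    · rw [Finset.mem_range]; omega
    · omega

theorem sum_sp (N : ℕ) (g : ℤ → ℕ) : ∑ k ∈ sp N, g k = ∑ j ∈ Finset.range N, g ((j : ℤ) + 1) := by
  unfold sp
  rw [Finset.sum_image]
  intro i _ j _ h
  have : (i : ℤ) + 1 = (j : ℤ) + 1 := h
  omega

theorem sum_sm (N : ℕ) (g : ℤ → ℕ) :
    ∑ k ∈ sm N, g k = ∑ j ∈ Finset.range N, g (-((j : ℤ) + 1)) := by
  unfold sm
  rw [Finset.sum_image]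
  intro i _ j _ h
  have : -((i : ℤ) + 1) = -((j : ℤ) + 1) := h
  omega

/-- Dimension in position `-j`. -/
noncomputable def dm (W : ℤ → Submodule ℚ M) (j : ℕ) : ℕ := finrank ℚ (W (-(j : ℤ)))

omit [FiniteDimensional ℚ M] in
theorem LHR.symm_dim (h : LHR L b N W) (j : ℕ) : finrank ℚ (W j) = dm W j := by
  let f : W (-(j : ℤ)) →ₗ[ℚ] W j :=
    { toFun := fun x => ⟨(L ^ (2 * j)) (x : M), by
        have := h.map_pow (2 * j) _ _ x.2
        have e : (-(j : ℤ) + ((2 * j : ℕ) : ℤ)) = j := by push_cast; ring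
        rwa [e] at this⟩
      map_add' := fun x y => by ext; simp
      map_smul' := fun a x => by ext; simp }
  refine (LinearEquiv.ofBijective f ⟨?_, ?_⟩).finrank_eq.symm
  · rw [injective_iff_map_eq_zero]
    intro x hx
    have := congrArg Subtype.val hx
    exact Subtype.ext (h.inj j x x.2 this)
  · intro y
    obtain ⟨x, hx, hxy⟩ := h.surj j y y.2
    exact ⟨⟨x, hx⟩, Subtype.ext hxy⟩

/-- Half of the off-middle dimension. -/
noncomputable def ff (W : ℤ → Submodule ℚ M) (N : ℕ) : ℕ := ∑ j ∈ Finset.range N, dm W (j + 1)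

theorem LHR.f_eq (h : LHR L b N W) : finrank ℚ (⨆ i ∈ sp N, W i : Submodule ℚ M) = ff W N := by
  rw [finrank_iSup_finset _ h.indep, sum_sp]
  unfold ff
  refine Finset.sum_congr rfl fun j _ => ?_
  rw [← h.symm_dim]
  push_cast
  rfl

omit [FiniteDimensional ℚ M] in
theorem LHR.all_eq (h : LHR L b N W) :
    (⨆ i, W i) = ⨆ i ∈ (sm N ∪ ({0} ∪ sp N) : Finset ℤ), W i := by
  apply le_antisymm
  · refine iSup_le fun k => ?_
    by_cases hk : k ∈ (sm N ∪ ({0} ∪ sp N) : Finset ℤ)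
    · exact le_iSup₂ (f := fun k (_ : k ∈ (sm N ∪ ({0} ∪ sp N) : Finset ℤ)) => W k) k hk
    · rw [Finset.mem_union, Finset.mem_union, Finset.mem_singleton, mem_sp, mem_sm] at hk
      rw [h.bot k (by omega)]
      exact bot_le
  · exact iSup₂_le fun k _ => le_iSup W k

theorem LHR.total (h : LHR L b N W) :
    finrank ℚ (⨆ i, W i : Submodule ℚ M) = 2 * ff W N + dm W 0 := by
  rw [h.all_eq, finrank_iSup_finset _ h.indep, Finset.sum_union, Finset.sum_union,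
    Finset.sum_singleton, sum_sm, ← finrank_iSup_finset _ h.indep (sp N), h.f_eq]
  · have e1 : ∑ j ∈ Finset.range N, finrank ℚ (W (-((j : ℤ) + 1))) = ff W N := by
      unfold ff dm
      refine Finset.sum_congr rfl fun j _ => ?_
      push_cast
      rfl
    have e2 : finrank ℚ (W 0) = dm W 0 := by
      unfold dm
      simp
    rw [e1, e2]
    ring
  · rw [Finset.disjoint_left]
    intro k hk hk2
    rw [Finset.mem_singleton] at hk
    rw [mem_sp] at hk2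
    omega
  · rw [Finset.disjoint_left]
    intro k hk hk2
    rw [mem_sm] at hk
    rw [Finset.mem_union, Finset.mem_singleton, mem_sp] at hk2
    omega

theorem LHR.finrank_sup (h : LHR L b N W) {K : Submodule ℚ M} (hK : K ≤ W 0) :
    finrank ℚ ((⨆ i ∈ sp N, W i) ⊔ K : Submodule ℚ M) = ff W N + finrank ℚ K := by
  have hd : Disjoint (W 0) (⨆ i ∈ sp N, W i) := by
    have := h.indep.disjoint_biSup (x := 0) (y := (sp N : Set ℤ))
      (by
        intro h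
        rw [Finset.mem_coe, mem_sp] at h
        omega)
    exact this
  have hd2 : Disjoint (⨆ i ∈ sp N, W i) K := (hd.mono_left hK).symm
  have h1 := Submodule.finrank_sup_add_finrank_inf_eq (⨆ i ∈ sp N, W i) K
  rw [hd2.eq_bot, finrank_bot, add_zero, h.f_eq] at h1
  exact h1

omit [FiniteDimensional ℚ M] in
theorem LHR.orth_sup (h : LHR L b N W) (s t : Finset ℤ) (hst : ∀ i ∈ s, ∀ k ∈ t, i + k ≠ 0)
    {x y : M} (hx : x ∈ ⨆ i ∈ s, W i) (hy : y ∈ ⨆ i ∈ t, W i) : b x y = 0 := by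
  suffices hle : (⨆ i ∈ s, W i) ≤ LinearMap.ker (b.flip y) from hle hx
  refine iSup₂_le fun i hi x hx => ?_
  show b x y = 0
  suffices hle : (⨆ i ∈ t, W i) ≤ LinearMap.ker (b x) from hle hy
  refine iSup₂_le fun k hk y hy => ?_
  exact h.orth i k x y hx hy (hst i hi k hk)

omit [FiniteDimensional ℚ M] in
theorem LHR.b_sup (h : LHR L b N W) (hsymm : ∀ x y, b x y = b y x) {K : Submodule ℚ M}
    (hK : K ≤ W 0) {x : M} (hx : x ∈ (⨆ i ∈ sp N, W i) ⊔ K) :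
    ∃ m ∈ K, b x x = b m m := by
  rw [Submodule.mem_sup] at hx
  obtain ⟨u, hu, m, hm, rfl⟩ := hx
  refine ⟨m, hm, ?_⟩
  have hmF : m ∈ ⨆ i ∈ ({0} : Finset ℤ), W i := by
    have : W 0 ≤ ⨆ i ∈ ({0} : Finset ℤ), W i :=
      le_iSup₂ (f := fun k (_ : k ∈ ({0} : Finset ℤ)) => W k) 0 (Finset.mem_singleton_self _)
    exact this (hK hm)
  have h1 : b u u = 0 := h.orth_sup _ _ (fun k hk l hl => by
    rw [mem_sp] at hk hl; omega) hu hu
  have h2 : b u m = 0 := h.orth_sup _ _ (fun k hk l hl => by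
    rw [mem_sp] at hk; rw [Finset.mem_singleton] at hl; omega) hu hmF
  rw [map_add b u m, LinearMap.add_apply, map_add (b u), map_add (b m), h1, h2, hsymm m u, h2]
  ring

/-- An isometry between the total spaces, not respecting the gradings. -/
structure Isom (Φ : M →ₗ[ℚ] M) (b : LinearMap.BilinForm ℚ M) (W W' : ℤ → Submodule ℚ M) :
    Prop where
  map : Submodule.map Φ (⨆ i, W i) = ⨆ i, W' i
  inj : ∀ x ∈ ⨆ i, W i, Φ x = 0 → x = 0
  isom : ∀ x ∈ ⨆ i, W i, b (Φ x) (Φ x) = b x x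

theorem Isom.ineq {Φ : M →ₗ[ℚ] M} (hΦ : Isom Φ b W W') (h : LHR L b N W) (h' : LHR L b N W')
    (hsymm : ∀ x y, b x y = b y x) (hL : ∀ x y, b (L x) y = - b x (L y)) (e : ℚ) (he : e ≠ 0)
    (K K' : Submodule ℚ M) (hK : K ≤ W 0) (hK' : K' ≤ W' 0) (h1 : ∀ x ∈ K, 0 ≤ e * b x x)
    (h2 : ∀ x ∈ K', e * b x x ≤ 0) :
    ff W N + finrank ℚ K + (ff W' N + finrank ℚ K') ≤ 2 * ff W' N + dm W' 0 := by
  have hle : ∀ (U : ℤ → Submodule ℚ M) (K : Submodule ℚ M), K ≤ U 0 →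
      (⨆ i ∈ sp N, U i) ⊔ K ≤ ⨆ i, U i := by
    intro U K hK
    refine sup_le ?_ ?_
    · exact iSup₂_le fun k _ => le_iSup U k
    · exact le_trans hK (le_iSup U 0)
  have := semi_sub (⨆ i, W' i) (Submodule.map Φ ((⨆ i ∈ sp N, W i) ⊔ K))
    ((⨆ i ∈ sp N, W' i) ⊔ K')
    (by
      rw [← hΦ.map]
      exact Submodule.map_mono (hle W K hK))
    (hle W' K' hK') (e • b)
    (fun x y => by
      show e * b x y = e * b y x
      rw [hsymm])
    (fun x hx h0 => h'.nondeg_sup hL x hx fun y hy => by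
      have := h0 y hy
      exact (mul_eq_zero.mp (show e * b x y = 0 from this)).resolve_left he)
    (by
      rintro _ ⟨x, hx, rfl⟩
      obtain ⟨m, hm, hxm⟩ := h.b_sup hsymm hK hx
      show 0 ≤ e * b (Φ x) (Φ x)
      rw [hΦ.isom x (hle W K hK hx), hxm]
      exact h1 m hm)
    (by
      intro x hx
      obtain ⟨m, hm, hxm⟩ := h'.b_sup hsymm hK' hx
      show e * b x x ≤ 0
      rw [hxm]
      exact h2 m hm)
  rw [h'.total, finrank_map_of_inj Φ _ (fun x hx => hΦ.inj x (hle W K hK hx)),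
    h.finrank_sup hK, h'.finrank_sup hK'] at this
  exact this

theorem Isom.total {Φ : M →ₗ[ℚ] M} (hΦ : Isom Φ b W W') (h : LHR L b N W) (h' : LHR L b N W') :
    2 * ff W N + dm W 0 = 2 * ff W' N + dm W' 0 := by
  rw [← h.total, ← h'.total, ← hΦ.map]
  exact (finrank_map_of_inj Φ _ hΦ.inj).symm

theorem Isom.main {Φ : M →ₗ[ℚ] M} (hΦ : Isom Φ b W W') (h : LHR L b N W) (h' : LHR L b N W')
    (hsymm : ∀ x y, b x y = b y x) (hL : ∀ x y, b (L x) y = - b x (L y)) (r : ℕ) (hr : N < r) :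
    (ff W N : ℤ) + Alt (dm W) r 0 = ff W' N + Alt (dm W') r 0 := by
  obtain ⟨M₁, M₂, hM₁, hM₂, p1, p2, hs, hA⟩ := h.definite hL r 0 (by simpa using hr)
  obtain ⟨N₁, N₂, hN₁, hN₂, q1, q2, hs', hA'⟩ := h'.definite hL r 0 (by simpa using hr)
  have z : (-((0 : ℕ) : ℤ)) = 0 := by simp
  rw [z] at hM₁ hM₂ hN₁ hN₂
  simp only [Nat.mul_zero, pow_zero, Module.End.one_apply] at p1 p2 q1 q2
  have pos : ∀ (K : Submodule ℚ M), (∀ x ∈ K, x ≠ 0 → 0 < b x x) → ∀ x ∈ K, 0 ≤ 1 * b x x := by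
    intro K h x hx
    rw [one_mul]
    by_cases h0 : x = 0
    · rw [h0]; simp
    · exact (h x hx h0).le
  have neg : ∀ (K : Submodule ℚ M), (∀ x ∈ K, x ≠ 0 → b x x < 0) → ∀ x ∈ K, 1 * b x x ≤ 0 := by
    intro K h x hx
    rw [one_mul]
    by_cases h0 : x = 0
    · rw [h0]; simp
    · exact (h x hx h0).le
  have i1 := hΦ.ineq h h' hsymm hL 1 one_ne_zero M₁ N₂ hM₁ hN₂ (pos M₁ p1) (neg N₂ q2)
  have i2 := hΦ.ineq h h' hsymm hL (-1) (by norm_num) M₂ N₁ hM₂ hN₁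
    (fun x hx => by have := neg M₂ p2 x hx; linarith)
    (fun x hx => by have := pos N₁ q1 x hx; linarith)
  have i3 := hΦ.total h h'
  have e1 : finrank ℚ (W (-((0 : ℕ) : ℤ))) = dm W 0 := rfl
  have e2 : finrank ℚ (W' (-((0 : ℕ) : ℤ))) = dm W' 0 := rfl
  rw [e1] at hs
  rw [e2] at hs'
  have a1 : (finrank ℚ M₁ : ℤ) = Alt (dm W) r 0 := hA
  have a2 : (finrank ℚ N₁ : ℤ) = Alt (dm W') r 0 := hA'
  omega

theorem Alt_step (d : ℕ → ℕ) (K : ℕ) : ∀ j : ℕ,
    Alt d (2 * K + 1) j = d j + ∑ i ∈ Finset.range K, ((d (j + 2 + 2 * i) : ℤ) - d (j + 1 + 2 * i)) := by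
  induction K with
  | zero => intro j; simp [Alt]
  | succ K ih =>
    intro j
    have e : Alt d (2 * (K + 1) + 1) j = d j - (d (j + 1) - Alt d (2 * K + 1) (j + 1 + 1)) := rfl
    rw [e, ih, Finset.sum_range_succ']
    have e2 : ∀ i : ℕ, ((d (j + 2 + 2 * (i + 1)) : ℤ) - d (j + 1 + 2 * (i + 1))) =
        ((d (j + 1 + 1 + 2 + 2 * i) : ℤ) - d (j + 1 + 1 + 1 + 2 * i)) := by
      intro i
      congr 3 <;> ring
    rw [Finset.sum_congr rfl fun i _ => e2 i]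
    have e3 : d (j + 1 + 1) = d (j + 2 + 2 * 0) := rfl
    have e4 : d (j + 1) = d (j + 1 + 2 * 0) := rfl
    rw [e3, e4]
    ring

theorem sum_pairs (g : ℕ → ℕ) (N : ℕ) :
    ∑ j ∈ Finset.range (2 * N), g j = ∑ i ∈ Finset.range N, (g (2 * i) + g (2 * i + 1)) := by
  induction N with
  | zero => simp
  | succ N ih =>
    rw [Finset.sum_range_succ, ← ih, show 2 * (N + 1) = 2 * N + 1 + 1 from rfl,
      Finset.sum_range_succ, Finset.sum_range_succ]
    ring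

/-- The identities for the dimensions, for a bound `N = 2 * K`. -/
theorem Isom.sums {Φ : M →ₗ[ℚ] M} {K : ℕ} (hΦ : Isom Φ b W W') (h : LHR L b (2 * K) W)
    (h' : LHR L b (2 * K) W')
    (hsymm : ∀ x y, b x y = b y x) (hL : ∀ x y, b (L x) y = - b x (L y)) :
    (∑ i ∈ Finset.range K, dm W (2 * i + 1) = ∑ i ∈ Finset.range K, dm W' (2 * i + 1)) ∧
    (dm W 0 + 2 * ∑ i ∈ Finset.range K, dm W (2 * i + 2) =
      dm W' 0 + 2 * ∑ i ∈ Finset.range K, dm W' (2 * i + 2)) := by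
  have h1 := hΦ.main h h' hsymm hL (2 * K + 1) (by omega)
  have h2 := hΦ.total h h'
  have g : ∀ U : ℤ → Submodule ℚ M, ff U (2 * K) =
      ∑ i ∈ Finset.range K, (dm U (2 * i + 1) + dm U (2 * i + 2)) := fun U => by
    unfold ff
    rw [sum_pairs (fun j => dm U (j + 1))]
  have a : ∀ U : ℤ → Submodule ℚ M, Alt (dm U) (2 * K + 1) 0 = dm U 0 +
      ∑ i ∈ Finset.range K, ((dm U (2 * i + 2) : ℤ) - dm U (2 * i + 1)) := fun U => by
    rw [Alt_step]
    congr 1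
    refine Finset.sum_congr rfl fun i _ => ?_
    rw [show 0 + 2 + 2 * i = 2 * i + 2 by ring, show 0 + 1 + 2 * i = 2 * i + 1 by ring]
  rw [a, a, g, g] at h1
  rw [g, g] at h2
  simp only [Finset.sum_add_distrib, Finset.sum_sub_distrib, Nat.cast_add, Nat.cast_sum] at h1 h2
  have c1 : ∀ U : ℤ → Submodule ℚ M, ((∑ i ∈ Finset.range K, dm U (2 * i + 1) : ℕ) : ℤ) =
      ∑ i ∈ Finset.range K, (dm U (2 * i + 1) : ℤ) := fun U => by push_cast; rfl
  have c2 : ∀ U : ℤ → Submodule ℚ M, ((∑ i ∈ Finset.range K, dm U (2 * i + 2) : ℕ) : ℤ) =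
      ∑ i ∈ Finset.range K, (dm U (2 * i + 2) : ℤ) := fun U => by push_cast; rfl
  rw [← c1 W, ← c1 W', ← c2 W, ← c2 W'] at h1
  constructor
  · omega
  · omega

end Pool.Agent.W539.Mot
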