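import Mathlib

namespace Pool.Agent.W539.Mot

open Module

/-- A nondegenerate symmetric rational bilinear form: a subspace where it is nonnegative and a
subspace where it is nonpositive have dimensions of sum at most the dimension. -/
theorem semi_rat {V : Type*} [AddCommGroup V] [Module ℚ V] [FiniteDimensional ℚ V]
    (B : LinearMap.BilinForm ℚ V) (hs : B.IsSymm) (hn : B.Nondegenerate)
    (W₁ W₂ : Submodule ℚ V) (h₁ : ∀ x ∈ W₁, 0 ≤ B x x) (h₂ : ∀ x ∈ W₂, B x x ≤ 0) :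
    finrank ℚ W₁ + finrank ℚ W₂ ≤ finrank ℚ V := by
  have key : ∀ (W : Submodule ℚ V) (s : ℚ), (∀ x ∈ W, 0 ≤ s * B x x) → s ≠ 0 →
      ∀ z ∈ W, B z z = 0 → ∀ w ∈ W, B z w = 0 := by
    intro W s hW hs0 z hz hzz w hw
    by_contra hne
    have hsym : B w z = B z w := (hs.eq z w).symm
    have hval : ∀ t : ℚ, 0 ≤ s * (B w w + 2 * t * B z w) := by
      intro t
      have := hW (w + t • z) (W.add_mem hw (W.smul_mem t hz))
      have e : B (w + t • z) (w + t • z) = B w w + 2 * t * B z w := by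
        simp only [map_add, map_smul, LinearMap.add_apply, LinearMap.smul_apply, smul_eq_mul,
          hzz, hsym]
        ring
      rw [e] at this
      exact this
    have hsb : s * B z w ≠ 0 := mul_ne_zero hs0 hne
    have := hval (-(s * B w w + 1) / (2 * (s * B z w)))
    have e2 : s * (B w w + 2 * (-(s * B w w + 1) / (2 * (s * B z w))) * B z w) = -1 := by
      field_simp
      ring
    rw [e2] at this
    linarith
  have hZ : ∀ z ∈ W₁ ⊓ W₂, B z z = 0 := fun z hz =>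
    le_antisymm (h₂ z hz.2) (h₁ z hz.1)
  have hle : W₁ ⊔ W₂ ≤ B.orthogonal (W₁ ⊓ W₂) := by
    refine sup_le ?_ ?_
    · intro w hw z hz
      exact key W₁ 1 (by simpa using h₁) one_ne_zero z hz.1 (hZ z hz) w hw
    · intro w hw z hz
      refine key W₂ (-1) (fun x hx => ?_) (by norm_num) z hz.2 (hZ z hz) w hw
      have := h₂ x hx
      linarith
  have h3 := Submodule.finrank_mono hle
  have h4 := LinearMap.BilinForm.finrank_orthogonal hn (W₁ ⊓ W₂)
  have h5 := Submodule.finrank_sup_add_finrank_inf_eq W₁ W₂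
  have h6 := Submodule.finrank_le (W₁ ⊓ W₂)
  omega

/-- The same on a subspace `T`. -/
theorem semi_sub {M : Type*} [AddCommGroup M] [Module ℚ M] [FiniteDimensional ℚ M]
    (T W₁ W₂ : Submodule ℚ M) (hW₁ : W₁ ≤ T) (hW₂ : W₂ ≤ T) (β : LinearMap.BilinForm ℚ M)
    (hsymm : ∀ x y, β x y = β y x)
    (hnd : ∀ x ∈ T, (∀ y ∈ T, β x y = 0) → x = 0)
    (h₁ : ∀ x ∈ W₁, 0 ≤ β x x) (h₂ : ∀ x ∈ W₂, β x x ≤ 0) :
    finrank ℚ W₁ + finrank ℚ W₂ ≤ finrank ℚ T := by
  let B : LinearMap.BilinForm ℚ T := β.restrict T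
  have hB : ∀ x y, B x y = β (x : M) (y : M) := fun x y => rfl
  have hs : B.IsSymm := ⟨fun x y => by simp only [hB]; exact hsymm _ _⟩
  have hn : B.Nondegenerate := by
    have : ∀ x, (∀ y, B x y = 0) → x = 0 := by
      intro x hx
      have := hnd (x : M) x.2 (fun y hy => hx ⟨y, hy⟩)
      exact Subtype.ext this
    refine ⟨this, ?_⟩
    intro y hy
    refine this y (fun x => ?_)
    rw [hB, hsymm]
    exact hy x
  have := semi_rat B hs hn (Submodule.comap T.subtype W₁) (Submodule.comap T.subtype W₂)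
    (fun x hx => h₁ _ hx) (fun x hx => h₂ _ hx)
  rw [(Submodule.comapSubtypeEquivOfLe hW₁).finrank_eq,
    (Submodule.comapSubtypeEquivOfLe hW₂).finrank_eq] at this
  exact this

theorem finrank_iSup_finset {ι V : Type*} [AddCommGroup V] [Module ℚ V] [FiniteDimensional ℚ V]
    (A : ι → Submodule ℚ V) (hA : iSupIndep A) (s : Finset ι) :
    finrank ℚ (⨆ i ∈ s, A i : Submodule ℚ V) = ∑ i ∈ s, finrank ℚ (A i) := by
  classical
  induction s using Finset.induction_on with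
  | empty => simp
  | insert a s ha ih =>
    rw [Finset.iSup_insert, Finset.sum_insert ha, ← ih]
    have hd : Disjoint (A a) (⨆ i ∈ s, A i) := by
      have := hA.disjoint_biSup (x := a) (y := (s : Set ι)) (by simpa using ha)
      simpa using this
    have h1 := Submodule.finrank_sup_add_finrank_inf_eq (A a) (⨆ i ∈ s, A i)
    rw [hd.eq_bot, finrank_bot, add_zero] at h1
    exact h1

theorem finrank_map_of_inj {V : Type*} [AddCommGroup V] [Module ℚ V] [FiniteDimensional ℚ V]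
    (f : V →ₗ[ℚ] V) (N : Submodule ℚ V) (h : ∀ x ∈ N, f x = 0 → x = 0) :
    finrank ℚ (Submodule.map f N) = finrank ℚ N := by
  have hinj : Function.Injective (f.domRestrict N) := by
    rw [injective_iff_map_eq_zero]
    intro x hx
    exact Subtype.ext (h x x.2 hx)
  have := LinearMap.finrank_range_of_inj hinj
  rw [LinearMap.range_domRestrict] at this
  exact this

variable {M : Type} [AddCommGroup M] [Module ℚ M] [FiniteDimensional ℚ M]

/-- A rational graded space with a Lefschetz operator satisfying hard Lefschetz and positivity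
of the form `b x (L^(2j) x)` on primitive elements. -/
structure LHR (L : M →ₗ[ℚ] M) (b : LinearMap.BilinForm ℚ M) (N : ℕ)
    (W : ℤ → Submodule ℚ M) : Prop where
  indep : iSupIndep W
  bot : ∀ i : ℤ, (i < -(N : ℤ) ∨ (N : ℤ) < i) → W i = ⊥
  map : ∀ (i : ℤ) (x : M), x ∈ W i → L x ∈ W (i + 1)
  inj : ∀ (j : ℕ) (x : M), x ∈ W (-(j : ℤ)) → (L ^ (2 * j)) x = 0 → x = 0
  surj : ∀ (j : ℕ) (y : M), y ∈ W j → ∃ x ∈ W (-(j : ℤ)), (L ^ (2 * j)) x = y
  orth : ∀ (i k : ℤ) (x y : M), x ∈ W i → y ∈ W k → i + k ≠ 0 → b x y = 0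
  pos : ∀ (j : ℕ) (x : M), x ∈ W (-(j : ℤ)) → x ≠ 0 → (L ^ (2 * j + 1)) x = 0 →
    0 < b x ((L ^ (2 * j)) x)

variable {L : M →ₗ[ℚ] M} {b : LinearMap.BilinForm ℚ M} {N : ℕ} {W : ℤ → Submodule ℚ M}

omit [FiniteDimensional ℚ M] in
theorem b_pow (hL : ∀ x y, b (L x) y = - b x (L y)) (m : ℕ) (x y : M) :
    b ((L ^ m) x) y = (-1) ^ m * b x ((L ^ m) y) := by
  induction m generalizing x y with
  | zero => simp
  | succ m ih =>
    rw [pow_succ', Module.End.mul_apply, hL, ih, ← Module.End.mul_apply, ← pow_succ, ← pow_succ',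
      pow_succ (-1 : ℚ) m]
    ring

omit [FiniteDimensional ℚ M] in
theorem LHR.map_pow (h : LHR L b N W) (m : ℕ) (i : ℤ) (x : M) (hx : x ∈ W i) :
    (L ^ m) x ∈ W (i + m) := by
  induction m with
  | zero => simpa using hx
  | succ m ih =>
    rw [pow_succ', Module.End.mul_apply]
    have := h.map _ _ ih
    push_cast
    rw [← add_assoc]
    exact this


omit [FiniteDimensional ℚ M] in
theorem LHR.prim (h : LHR L b N W) (j : ℕ) (x : M) (hx : x ∈ W (-(j : ℤ))) :
    ∃ v ∈ W (-((j + 1 : ℕ) : ℤ)), x - L v ∈ W (-(j : ℤ)) ∧ (L ^ (2 * j + 1)) (x - L v) = 0 := by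
  have h1 : (L ^ (2 * j + 1)) x ∈ W ((j + 1 : ℕ) : ℤ) := by
    have := h.map_pow (2 * j + 1) _ x hx
    have e : (-(j : ℤ) + ((2 * j + 1 : ℕ) : ℤ)) = ((j + 1 : ℕ) : ℤ) := by push_cast; ring
    rwa [e] at this
  obtain ⟨v, hv, hvx⟩ := h.surj (j + 1) _ h1
  refine ⟨v, hv, ?_, ?_⟩
  · refine Submodule.sub_mem _ hx ?_
    have := h.map _ _ hv
    have e : (-((j + 1 : ℕ) : ℤ) + 1) = -(j : ℤ) := by push_cast; ring
    rwa [e] at this
  · rw [map_sub, ← hvx, ← Module.End.mul_apply, ← pow_succ, show 2 * j + 1 + 1 = 2 * (j + 1) by ring,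
      sub_self]

theorem LHR.nondeg_neg (h : LHR L b N W) (hL : ∀ x y, b (L x) y = - b x (L y)) :
    ∀ (r j : ℕ), N < j + r → ∀ x ∈ W (-(j : ℤ)), x ≠ 0 →
      ∃ y ∈ W (-(j : ℤ)), b x ((L ^ (2 * j)) y) ≠ 0 := by
  intro r
  induction r with
  | zero =>
    intro j hj x hx hx0
    exfalso
    rw [h.bot (-(j : ℤ)) (by omega)] at hx
    exact hx0 ((Submodule.mem_bot ℚ).mp hx)
  | succ r ih =>
    intro j hj x hx hx0
    obtain ⟨v, hv, hu, hu2⟩ := h.prim j x hx
    by_cases hu0 : x - L v = 0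
    · have hx' : x = L v := sub_eq_zero.mp hu0
      have hv0 : v ≠ 0 := by
        rintro rfl
        apply hx0
        rw [hx', map_zero]
      obtain ⟨z, hz, hbz⟩ := ih (j + 1) (by omega) v hv hv0
      refine ⟨L z, ?_, ?_⟩
      · have := h.map _ _ hz
        have e : (-((j + 1 : ℕ) : ℤ) + 1) = -(j : ℤ) := by push_cast; ring
        rwa [e] at this
      · rw [hx', hL, ← Module.End.mul_apply, ← Module.End.mul_apply, ← pow_succ', ← pow_succ,
          show 2 * j + 1 + 1 = 2 * (j + 1) by ring]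
        exact neg_ne_zero.mpr hbz
    · refine ⟨x - L v, hu, ?_⟩
      have e : b x ((L ^ (2 * j)) (x - L v)) = b (x - L v) ((L ^ (2 * j)) (x - L v)) := by
        have : b (L v) ((L ^ (2 * j)) (x - L v)) = 0 := by
          rw [hL, ← Module.End.mul_apply, ← pow_succ', hu2, map_zero, neg_zero]
        rw [map_sub b x, LinearMap.sub_apply, this, sub_zero]
      rw [e]
      exact (h.pos j _ hu hu0 hu2).ne'

theorem LHR.nondeg (h : LHR L b N W) (hL : ∀ x y, b (L x) y = - b x (L y)) (i : ℤ) (x : M)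
    (hx : x ∈ W i) (hx0 : x ≠ 0) : ∃ y ∈ W (-i), b x y ≠ 0 := by
  rcases le_or_gt i 0 with hi | hi
  · obtain ⟨j, rfl⟩ : ∃ j : ℕ, i = -(j : ℤ) := ⟨(-i).toNat, by omega⟩
    obtain ⟨y, hy, hb⟩ := h.nondeg_neg hL (N + 1) j (by omega) x hx hx0
    refine ⟨(L ^ (2 * j)) y, ?_, hb⟩
    have := h.map_pow (2 * j) _ y hy
    have e : (-(j : ℤ) + ((2 * j : ℕ) : ℤ)) = - -(j : ℤ) := by push_cast; ring
    rwa [e] at this
  · obtain ⟨j, rfl⟩ : ∃ j : ℕ, i = (j : ℤ) := ⟨i.toNat, by omega⟩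
    obtain ⟨x', hx', rfl⟩ := h.surj j x hx
    have hx'0 : x' ≠ 0 := by
      rintro rfl
      exact hx0 (map_zero _)
    obtain ⟨y, hy, hb⟩ := h.nondeg_neg hL (N + 1) j (by omega) x' hx' hx'0
    refine ⟨y, hy, ?_⟩
    rw [b_pow hL]
    simpa using hb

theorem LHR.nondeg_sup (h : LHR L b N W) (hL : ∀ x y, b (L x) y = - b x (L y)) (x : M)
    (hx : x ∈ ⨆ i, W i) (h0 : ∀ y ∈ ⨆ i, W i, b x y = 0) : x = 0 := by
  classical
  rw [Submodule.mem_iSup_iff_exists_finsupp] at hx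
  obtain ⟨f, hf, hfx⟩ := hx
  by_contra hne
  have hsupp : f.support.Nonempty := by
    rw [Finset.nonempty_iff_ne_empty]
    intro h0
    apply hne
    rw [← hfx, Finsupp.sum, h0, Finset.sum_empty]
  obtain ⟨k0, hk0⟩ := hsupp
  obtain ⟨y, hy, hb⟩ := h.nondeg hL k0 (f k0) (hf k0) (Finsupp.mem_support_iff.mp hk0)
  apply hb
  have h1 := h0 y (Submodule.mem_iSup_of_mem _ hy)
  rw [← hfx, Finsupp.sum, map_sum, LinearMap.sum_apply, Finset.sum_eq_single k0] at h1
  · exact h1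
  · intro k _ hk
    exact h.orth k (-k0) _ _ (hf k) hy (by omega)
  · intro hk
    exact absurd hk0 hk

/-- Alternating sums. -/
def Alt (d : ℕ → ℕ) : ℕ → ℕ → ℤ
  | 0, _ => 0
  | r + 1, j => d j - Alt d r (j + 1)

/-- Definite decomposition in the middle. -/
theorem LHR.definite (h : LHR L b N W) (hL : ∀ x y, b (L x) y = - b x (L y)) :
    ∀ (r j : ℕ), N < j + r → ∃ M₁ M₂ : Submodule ℚ M, M₁ ≤ W (-(j : ℤ)) ∧ M₂ ≤ W (-(j : ℤ)) ∧
      (∀ x ∈ M₁, x ≠ 0 → 0 < b x ((L ^ (2 * j)) x)) ∧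
      (∀ x ∈ M₂, x ≠ 0 → b x ((L ^ (2 * j)) x) < 0) ∧
      finrank ℚ M₁ + finrank ℚ M₂ = finrank ℚ (W (-(j : ℤ))) ∧
      (finrank ℚ M₁ : ℤ) = Alt (fun i => finrank ℚ (W (-(i : ℤ)))) r j := by
  intro r
  induction r with
  | zero =>
    intro j hj
    have hb : W (-(j : ℤ)) = ⊥ := h.bot _ (by omega)
    refine ⟨⊥, ⊥, bot_le, bot_le, ?_, ?_, ?_, ?_⟩
    · intro x hx h0
      exact absurd ((Submodule.mem_bot ℚ).mp hx) h0
    · intro x hx h0
      exact absurd ((Submodule.mem_bot ℚ).mp hx) h0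
    · rw [hb]
      simp
    · simp [Alt]
  | succ r ih =>
    intro j hj
    obtain ⟨N₁, N₂, hN₁, hN₂, pos, neg, hsum, hA⟩ := ih (j + 1) (by omega)
    have hLmem : ∀ x ∈ W (-((j + 1 : ℕ) : ℤ)), L x ∈ W (-(j : ℤ)) := by
      intro x hx
      have := h.map _ _ hx
      have e : (-((j + 1 : ℕ) : ℤ) + 1) = -(j : ℤ) := by push_cast; ring
      rwa [e] at this
    have hpow : ∀ x : M, (L ^ (2 * j + 1)) (L x) = (L ^ (2 * (j + 1))) x := by
      intro x
      rw [← Module.End.mul_apply, ← pow_succ, show 2 * j + 1 + 1 = 2 * (j + 1) by ring]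
    have hinj : ∀ x ∈ W (-((j + 1 : ℕ) : ℤ)), L x = 0 → x = 0 := by
      intro x hx h0
      refine h.inj (j + 1) x hx ?_
      rw [← hpow, h0, map_zero]
    let P : Submodule ℚ M := W (-(j : ℤ)) ⊓ LinearMap.ker (L ^ (2 * j + 1))
    have hP : ∀ x ∈ P, x ∈ W (-(j : ℤ)) ∧ (L ^ (2 * j + 1)) x = 0 := fun x hx => ⟨hx.1, hx.2⟩
    let Lm : Submodule ℚ M → Submodule ℚ M := fun K => Submodule.map L K
    have hLm : ∀ K, K ≤ W (-((j + 1 : ℕ) : ℤ)) → finrank ℚ (Lm K) = finrank ℚ K := fun K hK =>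
      finrank_map_of_inj _ _ fun x hx h0 => hinj x (hK hx) h0
    have hLle : ∀ K, K ≤ W (-((j + 1 : ℕ) : ℤ)) → Lm K ≤ W (-(j : ℤ)) := by
      rintro K hK _ ⟨x, hx, rfl⟩
      exact hLmem x (hK hx)
    have hdis : ∀ K, K ≤ W (-((j + 1 : ℕ) : ℤ)) → P ⊓ Lm K = ⊥ := by
      intro K hK
      rw [eq_bot_iff]
      rintro y ⟨hy1, x, hx, rfl⟩
      have h1 := (hP _ hy1).2
      rw [hpow] at h1
      rw [h.inj (j + 1) x (hK hx) h1]
      simp
    have hall : P ⊔ Lm (W (-((j + 1 : ℕ) : ℤ))) = W (-(j : ℤ)) := by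
      apply le_antisymm
      · exact sup_le inf_le_left (hLle _ le_rfl)
      · intro x hx
        obtain ⟨v, hv, hu, hu2⟩ := h.prim j x hx
        rw [Submodule.mem_sup]
        exact ⟨x - L v, ⟨hu, hu2⟩, L v, ⟨v, hv, rfl⟩, by abel⟩
    have hdimP : finrank ℚ P + finrank ℚ (W (-((j + 1 : ℕ) : ℤ))) = finrank ℚ (W (-(j : ℤ))) := by
      have h1 := Submodule.finrank_sup_add_finrank_inf_eq P (Lm (W (-((j + 1 : ℕ) : ℤ))))
      rw [hall, hdis _ le_rfl, finrank_bot, add_zero, hLm _ le_rfl] at h1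
      exact h1.symm
    have hdimM : finrank ℚ (P ⊔ Lm N₂ : Submodule ℚ M) = finrank ℚ P + finrank ℚ N₂ := by
      have h1 := Submodule.finrank_sup_add_finrank_inf_eq P (Lm N₂)
      rw [hdis _ hN₂, finrank_bot, add_zero, hLm _ hN₂] at h1
      exact h1
    have hdimL : finrank ℚ (Lm N₁) = finrank ℚ N₁ := hLm _ hN₁
    have hbL : ∀ v : M, b (L v) ((L ^ (2 * j)) (L v)) = - b v ((L ^ (2 * (j + 1))) v) := by
      intro v
      rw [hL, ← Module.End.mul_apply, ← Module.End.mul_apply, ← pow_succ', ← pow_succ,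
        show 2 * j + 1 + 1 = 2 * (j + 1) by ring]
    refine ⟨P ⊔ Lm N₂, Lm N₁, sup_le inf_le_left (hLle _ hN₂), hLle _ hN₁, ?_, ?_, ?_, ?_⟩
    · intro x hx hx0
      rw [Submodule.mem_sup] at hx
      obtain ⟨u, hu, _, ⟨v, hv, rfl⟩, rfl⟩ := hx
      have hu2 := hP u hu
      have c1 : b (L v) ((L ^ (2 * j)) u) = 0 := by
        rw [hL, ← Module.End.mul_apply, ← pow_succ', hu2.2, map_zero, neg_zero]
      have c2 : b u ((L ^ (2 * j)) (L v)) = 0 := by
        rw [← Module.End.mul_apply, ← pow_succ]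
        have e := b_pow hL (2 * j + 1) u v
        rw [hu2.2, map_zero, LinearMap.zero_apply, Odd.neg_one_pow ⟨j, rfl⟩] at e
        linarith
      have e : b (u + L v) ((L ^ (2 * j)) (u + L v)) =
          b u ((L ^ (2 * j)) u) - b v ((L ^ (2 * (j + 1))) v) := by
        rw [map_add (L ^ (2 * j)), map_add b, LinearMap.add_apply, map_add, map_add, c1, c2, hbL]
        ring
      rw [e]
      have hupos : u ≠ 0 → 0 < b u ((L ^ (2 * j)) u) := fun h0 => h.pos j u hu2.1 h0 hu2.2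
      have hvneg : v ≠ 0 → b v ((L ^ (2 * (j + 1))) v) < 0 := neg v hv
      by_cases hu0 : u = 0
      · have hv0 : v ≠ 0 := by
          rintro rfl
          apply hx0
          rw [hu0]
          simp
        have := hvneg hv0
        rw [hu0, map_zero, LinearMap.zero_apply]
        linarith
      · by_cases hv0 : v = 0
        · rw [hv0, map_zero, LinearMap.zero_apply]
          have := hupos hu0
          linarith
        · have := hupos hu0
          have := hvneg hv0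
          linarith
    · rintro x ⟨v, hv, rfl⟩ hx0
      rw [hbL]
      have hv0 : v ≠ 0 := by
        rintro rfl
        exact hx0 (by simp)
      have := pos v hv hv0
      linarith
    · rw [hdimM, hdimL]
      omega
    · have hA' : Alt (fun i => finrank ℚ (W (-(i : ℤ)))) (r + 1) j =
        finrank ℚ (W (-(j : ℤ))) - Alt (fun i => finrank ℚ (W (-(i : ℤ)))) r (j + 1) := rfl
      rw [hdimM, hA', ← hA]
      push_cast
      push_cast at hdimP hsum
      omega

end Pool.Agent.W539.Mot
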