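import Pool.Agent.W539.Mot.Dims

namespace Pool.Agent.W539.Mot

open Module

variable {n : ℕ}

theorem P_single (D : HomMot n) (k : ℤ) : D.P {k} = D.π k := by
  unfold HomMot.P
  rw [Finset.sum_singleton]

/-- From isomorphisms in all degrees to one isomorphism of the whole motives. -/
theorem HomMot.glue (D : HomMot n) (h : ∀ k : ℤ, D.IsoDeg k) :
    ∃ A ∈ D.E, ∃ B ∈ D.E, (∀ (k : ℤ), ∀ v ∈ D.G k, A v ∈ D.G k) ∧
      (∀ (k : ℤ), ∀ v ∈ D.G k, B v ∈ D.G k) ∧ D.e' * A * D.e = A ∧ D.e * B * D.e' = B ∧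
      B * A = D.e ∧ A * B = D.e' := by
  choose a ha b hb h1 h2 h3 h4 using h
  have par := fun k => D.par_of_isoSum (ha k) (hb k) (h1 k) (h2 k) (h3 k) (h4 k)
  simp only [P_single] at par
  have ea : ∀ k, D.e' * a k = a k := fun k => by
    rw [← (par k).h1, D.π_e', ← mul_assoc, ← mul_assoc, D.e'_idem]
  have ae : ∀ k, a k * D.e = a k := fun k => by
    rw [← (par k).h2, mul_assoc, mul_assoc, D.e_idem]
  have eb : ∀ k, D.e * b k = b k := fun k => by
    rw [← (par k).h3, D.π_e, ← mul_assoc, ← mul_assoc, D.e_idem]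
  have be : ∀ k, b k * D.e' = b k := fun k => by
    rw [← (par k).h4, mul_assoc, mul_assoc, D.e'_idem]
  have πa : ∀ k, D.π k * a k = a k := fun k => by
    rw [← (par k).h1, ← mul_assoc, ← mul_assoc, D.π_idem]
  have aπ : ∀ k, a k * D.π k = a k := fun k => by
    rw [← (par k).h2, D.π_e, mul_assoc, mul_assoc, D.π_idem]
  have πb : ∀ k, D.π k * b k = b k := fun k => by
    rw [← (par k).h3, ← mul_assoc, ← mul_assoc, D.π_idem]
  have bπ : ∀ k, b k * D.π k = b k := fun k => by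
    rw [← (par k).h4, D.π_e', mul_assoc, mul_assoc, D.π_idem]
  have deg : ∀ (x : ℤ → Module.End ℚ D.V), (∀ k, D.π k * x k = x k) →
      (∀ k, x k * D.π k = x k) → ∀ (k l : ℤ), ∀ v ∈ D.G k, x l v ∈ D.G k := by
    intro x hx1 hx2 k l v hv
    rw [← hx2, Module.End.mul_apply, D.π_apply l k v hv]
    split_ifs with hkl
    · subst hkl
      rw [← hx1]
      exact D.π_mem_G _ _
    · rw [map_zero]
      exact Submodule.zero_mem _
  refine ⟨∑ k ∈ Finset.range (2 * n + 1), a k, Subalgebra.sum_mem _ fun k _ => ha k,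
    ∑ k ∈ Finset.range (2 * n + 1), b k, Subalgebra.sum_mem _ fun k _ => hb k, ?_, ?_, ?_, ?_, ?_,
    ?_⟩
  · intro k v hv
    rw [LinearMap.sum_apply]
    exact Submodule.sum_mem _ fun l _ => deg a πa aπ k l v hv
  · intro k v hv
    rw [LinearMap.sum_apply]
    exact Submodule.sum_mem _ fun l _ => deg b πb bπ k l v hv
  · rw [Finset.mul_sum, Finset.sum_mul]
    exact Finset.sum_congr rfl fun k _ => by rw [ea, ae]
  · rw [Finset.mul_sum, Finset.sum_mul]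
    exact Finset.sum_congr rfl fun k _ => by rw [eb, be]
  · rw [Finset.sum_mul]
    have : ∀ k ∈ Finset.range (2 * n + 1),
        b k * ∑ l ∈ Finset.range (2 * n + 1), a l = D.π k * D.e := by
      intro k hk
      rw [Finset.mul_sum, Finset.sum_eq_single k]
      · rw [h3, P_single]
      · intro l _ hl
        rw [← bπ, ← πa, mul_assoc, ← mul_assoc (D.π k), D.π_orth (by omega), zero_mul, mul_zero]
      · intro h
        exact absurd hk h
    rw [Finset.sum_congr rfl this, ← Finset.sum_mul, D.sum_π, one_mul]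
  · rw [Finset.sum_mul]
    have : ∀ k ∈ Finset.range (2 * n + 1),
        a k * ∑ l ∈ Finset.range (2 * n + 1), b l = D.π k * D.e' := by
      intro k hk
      rw [Finset.mul_sum, Finset.sum_eq_single k]
      · rw [h4, P_single]
      · intro l _ hl
        rw [← aπ, ← πb, mul_assoc, ← mul_assoc (D.π k), D.π_orth (by omega), zero_mul, mul_zero]
      · intro h
        exact absurd hk h
    rw [Finset.sum_congr rfl this, ← Finset.sum_mul, D.sum_π, one_mul]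

theorem idem_nilp {R : Type*} [Ring R] {ε : R} (h1 : ε * ε = ε) (h2 : IsNilpotent ε) : ε = 0 := by
  obtain ⟨m, hm⟩ := h2
  have h3 : ∀ m : ℕ, ε ^ (m + 1) = ε := by
    intro m
    induction m with
    | zero => rw [zero_add, pow_one]
    | succ m ih => rw [pow_succ, ih, h1]
  rw [← h3 m, pow_succ, hm, zero_mul]

/-- Isomorphisms of homological motives lift to Chow motives. -/
theorem ChowMot.lift (D : ChowMot n) (h : ∀ k : ℤ, D.toHomMot.IsoDeg k) : D.Iso := by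
  obtain ⟨A, hA, B, hB, dA, dB, eA, eB, hBA, hAB⟩ := D.toHomMot.glue h
  obtain ⟨α₀, hα₀⟩ := D.ch.ρ_surj A hA dA
  obtain ⟨β₀, hβ₀⟩ := D.ch.ρ_surj B hB dB
  have ρe' : D.ρ (1 - D.Δ) = D.toHomMot.e' := by
    rw [map_sub, map_one, D.ρ_Δ]
    rfl
  have hΔ := D.Δ_idem
  have hΔ' : (1 - D.Δ) * (1 - D.Δ) = 1 - D.Δ := by
    rw [mul_sub, sub_mul, sub_mul, hΔ]
    simp
  obtain ⟨α, hα⟩ : ∃ α, α = (1 - D.Δ) * α₀ * D.Δ := ⟨_, rfl⟩
  obtain ⟨β, hβ⟩ : ∃ β, β = D.Δ * β₀ * (1 - D.Δ) := ⟨_, rfl⟩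
  have ρα : D.ρ α = A := by
    rw [hα, map_mul, map_mul, ρe', D.ρ_Δ, hα₀, eA]
  have ρβ : D.ρ β = B := by
    rw [hβ, map_mul, map_mul, ρe', D.ρ_Δ, hβ₀, eB]
  have hα1 : (1 - D.Δ) * α = α := by rw [hα, ← mul_assoc, ← mul_assoc, hΔ']
  have hα2 : α * D.Δ = α := by rw [hα, mul_assoc, hΔ]
  have hβ1 : D.Δ * β = β := by rw [hβ, ← mul_assoc, ← mul_assoc, hΔ]
  have hβ2 : β * (1 - D.Δ) = β := by rw [hβ, mul_assoc, hΔ']
  obtain ⟨ν, hν⟩ : ∃ ν, ν = β * α - D.Δ := ⟨_, rfl⟩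
  have ρν : D.ρ ν = 0 := by
    rw [hν, map_sub, map_mul, ρα, ρβ, D.ρ_Δ, hBA, sub_self]
  have hν1 : D.Δ * ν = ν := by rw [hν, mul_sub, ← mul_assoc, hβ1, hΔ]
  have hν2 : ν * D.Δ = ν := by rw [hν, sub_mul, mul_assoc, hα2, hΔ]
  obtain ⟨u, hu⟩ := (D.ch.nil ν ρν).isUnit_one_add
  obtain ⟨w, hw⟩ : ∃ w : D.C, w = ((u⁻¹ : D.Cˣ) : D.C) := ⟨_, rfl⟩
  have hw1 : w * (1 + ν) = 1 := by rw [hw, ← hu, Units.inv_mul]
  have hw2 : (1 + ν) * w = 1 := by rw [hw, ← hu, Units.mul_inv]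
  have hwΔ : w * D.Δ = D.Δ * w := by
    calc w * D.Δ = w * D.Δ * ((1 + ν) * w) := by rw [hw2, mul_one]
      _ = w * ((D.Δ * (1 + ν)) * w) := by simp only [mul_assoc]
      _ = w * (((1 + ν) * D.Δ) * w) := by
          have e : D.Δ * (1 + ν) = (1 + ν) * D.Δ := by
            rw [mul_add, add_mul, hν1, hν2, mul_one, one_mul]
          rw [e]
      _ = (w * (1 + ν)) * (D.Δ * w) := by simp only [mul_assoc]
      _ = D.Δ * w := by rw [hw1, one_mul]
  have ρw : D.ρ w = 1 := by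
    have := congrArg D.ρ hw1
    rw [map_mul, map_add, ρν, map_one, add_zero, mul_one] at this
    exact this
  obtain ⟨γ, hγ⟩ : ∃ γ, γ = w * β := ⟨_, rfl⟩
  have hγα : γ * α = D.Δ := by
    have e : β * α = (1 + ν) * D.Δ := by
      rw [add_mul, one_mul, hν2, hν]
      abel
    rw [hγ, mul_assoc, e, ← mul_assoc, hw1, one_mul]
  have hγ1 : D.Δ * γ = γ := by rw [hγ, ← mul_assoc, ← hwΔ, mul_assoc, hβ1]
  have hγ2 : γ * (1 - D.Δ) = γ := by rw [hγ, mul_assoc, hβ2]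
  have hε : 1 - D.Δ - α * γ = 0 := by
    apply idem_nilp
    · have e1 : (1 - D.Δ) * (α * γ) = α * γ := by rw [← mul_assoc, hα1]
      have e2 : α * γ * (1 - D.Δ) = α * γ := by rw [mul_assoc, hγ2]
      have e3 : α * γ * (α * γ) = α * γ := by
        rw [mul_assoc, ← mul_assoc γ, hγα, hγ1]
      rw [mul_sub, sub_mul (1 - D.Δ) (α * γ) (1 - D.Δ), sub_mul (1 - D.Δ) (α * γ) (α * γ), hΔ', e1,
        e2, e3]
      abel
    · apply D.ch.nil
      rw [map_sub, ρe', map_mul, ρα, hγ, map_mul, ρw, ρβ, one_mul, hAB, sub_self]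
  refine ⟨α, γ, ?_, ?_, hγα, (sub_eq_zero.mp hε).symm⟩
  · rw [hα1, hα2]
  · rw [hγ1, hγ2]

end Pool.Agent.W539.Mot
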