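import Pool.Agent.W539.Mot.Basic
import Pool.Agent.W539.Mot.Inertia

namespace Pool.Agent.W539.Mot

open Module

variable {n : ℕ} (D : HomMot n)

namespace HomMot

/-- The properties of the projectors `e` and `e'` which are used. -/
structure Pj (p : Module.End ℚ D.V) : Prop where
  mem : p ∈ D.E
  idem : p * p = p
  comm_π : ∀ k, D.π k * p = p * D.π k
  comm_L : p * D.L = D.L * p

theorem pj_e : D.Pj D.e := ⟨D.e_mem, D.e_idem, D.π_e, D.e_L⟩

theorem pj_e' : D.Pj D.e' := ⟨D.e'_mem, D.e'_idem, D.π_e', D.e'_L⟩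

/-- Left ideals of `E`. -/
structure LId (T : Submodule ℚ (Module.End ℚ D.V)) : Prop where
  le : ∀ x ∈ T, x ∈ D.E
  mul : ∀ a ∈ D.E, ∀ x ∈ T, a * x ∈ T

/-- The part `p * π k * T` of `T`. -/
def H (T : Submodule ℚ (Module.End ℚ D.V)) (p : Module.End ℚ D.V) (k : ℤ) :
    Submodule ℚ (Module.End ℚ D.V) where
  carrier := {x | x ∈ T ∧ p * x = x ∧ D.π k * x = x}
  zero_mem' := ⟨T.zero_mem, mul_zero _, mul_zero _⟩
  add_mem' := by
    rintro x y ⟨h1, h2, h3⟩ ⟨h4, h5, h6⟩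
    exact ⟨T.add_mem h1 h4, by rw [mul_add, h2, h5], by rw [mul_add, h3, h6]⟩
  smul_mem' := by
    rintro c x ⟨h1, h2, h3⟩
    exact ⟨T.smul_mem c h1, by rw [mul_smul_comm, h2], by rw [mul_smul_comm, h3]⟩

theorem mem_H {T : Submodule ℚ (Module.End ℚ D.V)} {p : Module.End ℚ D.V} {k : ℤ}
    {x : Module.End ℚ D.V} : x ∈ D.H T p k ↔ x ∈ T ∧ p * x = x ∧ D.π k * x = x := Iff.rfl

variable {D} in
theorem H_G {T : Submodule ℚ (Module.End ℚ D.V)} {p : Module.End ℚ D.V} {k : ℤ}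
    {x : Module.End ℚ D.V} (h : x ∈ D.H T p k) (v : D.V) : x v ∈ D.G k := by
  rw [← h.2.2]
  exact D.π_mem_G k _

theorem H_bot (T : Submodule ℚ (Module.End ℚ D.V)) (p : Module.End ℚ D.V) {k : ℤ}
    (hk : k < 0 ∨ 2 * n < k) : D.H T p k = ⊥ := by
  rw [eq_bot_iff]
  rintro x ⟨_, _, h⟩
  rw [D.π_out k hk, zero_mul] at h
  rw [← h]
  exact Submodule.zero_mem _

theorem H_L {T : Submodule ℚ (Module.End ℚ D.V)} (hT : D.LId T) {p : Module.End ℚ D.V}
    (hp : D.Pj p) {k : ℤ} {x : Module.End ℚ D.V} (h : x ∈ D.H T p k) (i : ℕ) :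
    D.L ^ i * x ∈ D.H T p (k + 2 * i) := by
  refine ⟨hT.mul _ (D.E.pow_mem D.L_mem i) x h.1, ?_, ?_⟩
  · have hc : p * D.L ^ i = D.L ^ i * p := by
      have := (show Commute p D.L from hp.comm_L).pow_right i
      exact this
    rw [← mul_assoc, hc, mul_assoc, h.2.1]
  · rw [← mul_assoc, D.π_Lpow, mul_assoc, h.2.2]

theorem θ_inv {i : ℕ} {θ : Module.End ℚ D.V} (hθ : ∀ u ∈ D.G (n - i), θ ((D.L ^ i) u) = u)
    {x : Module.End ℚ D.V} (hx : ∀ v, x v ∈ D.G (n - i)) : θ * (D.L ^ i * x) = x := by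
  ext v
  exact hθ _ (hx v)

theorem H_surj {T : Submodule ℚ (Module.End ℚ D.V)} (hT : D.LId T) {p : Module.End ℚ D.V}
    (hp : D.Pj p) (i : ℕ) {y : Module.End ℚ D.V} (h : y ∈ D.H T p (n + i)) :
    ∃ x ∈ D.H T p (n - i), D.L ^ i * x = y := by
  obtain ⟨θ, hθE, hθ⟩ := D.hl_inv i
  have h1 : ∀ v, (θ * y) v ∈ D.G (n - i) ∧ (D.L ^ i) ((θ * y) v) = y v := by
    intro v
    obtain ⟨u, hu, huv⟩ := D.hl_surj i (y v) (H_G h v)
    have : (θ * y) v = u := by
      rw [Module.End.mul_apply, ← huv]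
      exact hθ u hu
    rw [this]
    exact ⟨hu, huv⟩
  have h2 : D.L ^ i * (θ * y) = y := by
    ext v
    exact (h1 v).2
  have hπ : D.π (n - i) * (θ * y) = θ * y := by
    ext v
    exact (D.mem_G_iff _ _).mp (h1 v).1
  have hc : p * D.L ^ i = D.L ^ i * p := by
    have := (show Commute p D.L from hp.comm_L).pow_right i
    exact this
  refine ⟨θ * y, ⟨hT.mul _ hθE _ h.1, ?_, hπ⟩, h2⟩
  have h3 : D.L ^ i * (p * (θ * y)) = D.L ^ i * (θ * y) := by
    rw [← mul_assoc, ← hc, mul_assoc, h2, h.2.1]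
  have h4 : ∀ v, (p * (θ * y)) v ∈ D.G (n - i) := by
    intro v
    rw [D.mem_G_iff, ← Module.End.mul_apply, ← mul_assoc, hp.comm_π, mul_assoc, hπ]
  rw [← D.θ_inv hθ h4, h3, D.θ_inv hθ fun v => (h1 v).1]

theorem H_inj (i : ℕ) {x : Module.End ℚ D.V} (hx : ∀ v, x v ∈ D.G (n - i))
    (h0 : D.L ^ i * x = 0) : x = 0 := by
  obtain ⟨θ, hθE, hθ⟩ := D.hl_inv i
  rw [← D.θ_inv hθ hx, h0, mul_zero]

/-- The Lefschetz operator acting on `End V`. -/
noncomputable def LL : Module.End ℚ D.V →ₗ[ℚ] Module.End ℚ D.V := LinearMap.mulLeft ℚ D.L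

theorem LL_pow (m : ℕ) (x : Module.End ℚ D.V) : (D.LL ^ m) x = D.L ^ m * x := by
  unfold LL
  rw [LinearMap.pow_mulLeft]
  rfl

/-- The form `trace (t x * δ * y * s)`. -/
noncomputable def b0 : LinearMap.BilinForm ℚ (Module.End ℚ D.V) :=
  LinearMap.mk₂ ℚ (fun x y => LinearMap.trace ℚ D.V (D.t x * D.δ * y * D.s))
    (fun x x' y => by rw [D.t_add, add_mul, add_mul, add_mul, map_add])
    (fun c x y => by
      rw [D.t_smul, smul_mul_assoc, smul_mul_assoc, smul_mul_assoc, map_smul])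
    (fun x y y' => by rw [mul_add, add_mul, map_add])
    (fun c x y => by rw [mul_smul_comm, smul_mul_assoc, map_smul])

theorem b0_apply (x y : Module.End ℚ D.V) :
    D.b0 x y = LinearMap.trace ℚ D.V (D.t x * D.δ * y * D.s) := rfl

/-- The symmetric form. -/
noncomputable def bf : LinearMap.BilinForm ℚ (Module.End ℚ D.V) := D.b0 + D.b0.flip

theorem bf_apply (x y : Module.End ℚ D.V) : D.bf x y = D.b0 x y + D.b0 y x := rfl

theorem bf_symm (x y : Module.End ℚ D.V) : D.bf x y = D.bf y x := by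
  rw [bf_apply, bf_apply, add_comm]

theorem b0_L (x y : Module.End ℚ D.V) : D.b0 (D.L * x) y = - D.b0 x (D.L * y) := by
  rw [b0_apply, b0_apply, D.t_mul, D.t_L, mul_assoc (D.t x) D.L, show D.L * D.δ = -(D.δ * D.L) by
    rw [D.δ_L, neg_neg]]
  simp only [mul_neg, neg_mul, map_neg, mul_assoc]

theorem bf_L (x y : Module.End ℚ D.V) : D.bf (D.LL x) y = - D.bf x (D.LL y) := by
  show D.bf (D.L * x) y = - D.bf x (D.L * y)
  rw [bf_apply, bf_apply, b0_L, b0_L]
  ring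

theorem b0_orth {i k : ℤ} {x y : Module.End ℚ D.V} (hx : D.π (n + 2 * i) * x = x)
    (hy : D.π (n + 2 * k) * y = y) (h : i + k ≠ 0) : D.b0 x y = 0 := by
  rw [b0_apply, ← hx, ← hy, D.t_mul, D.t_π]
  have : D.π (2 * n - (n + 2 * i)) * D.δ * D.π (n + 2 * k) = 0 := by
    rw [mul_assoc, D.δ_π, mul_smul_comm, D.π_orth (by omega), smul_zero]
  have e : D.t x * D.π (2 * n - (n + 2 * i)) * D.δ * (D.π (n + 2 * k) * y) * D.s =
      D.t x * (D.π (2 * n - (n + 2 * i)) * D.δ * D.π (n + 2 * k)) * y * D.s := by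
    simp only [mul_assoc]
  rw [e, this]
  simp

theorem sg_zpow (k : ℤ) : (-1 : ℚ) ^ (k * (k - 1) / 2) = sg k := by
  obtain ⟨q, r, hr, rfl⟩ : ∃ q r : ℤ, (r = 0 ∨ r = 1 ∨ r = 2 ∨ r = 3) ∧ k = 4 * q + r :=
    ⟨k / 4, k % 4, by omega, by omega⟩
  unfold sg
  rcases hr with rfl | rfl | rfl | rfl
  · have e : (4 * q + 0) * (4 * q + 0 - 1) / 2 = 2 * (q * (4 * q - 1)) := by
      rw [show (4 * q + 0) * (4 * q + 0 - 1) = (2 * (q * (4 * q - 1))) * 2 by ring]
      simp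
    rw [e, if_pos (by omega), Even.neg_one_zpow (even_two_mul _)]
  · have e : (4 * q + 1) * (4 * q + 1 - 1) / 2 = 2 * (q * (4 * q + 1)) := by
      rw [show (4 * q + 1) * (4 * q + 1 - 1) = (2 * (q * (4 * q + 1))) * 2 by ring]
      simp
    rw [e, if_pos (by omega), Even.neg_one_zpow (even_two_mul _)]
  · have e : (4 * q + 2) * (4 * q + 2 - 1) / 2 = 2 * (4 * q * q + 3 * q) + 1 := by
      rw [show (4 * q + 2) * (4 * q + 2 - 1) = (2 * (4 * q * q + 3 * q) + 1) * 2 by ring]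
      simp
    rw [e, if_neg (by omega), Odd.neg_one_zpow ⟨_, rfl⟩]
  · have e : (4 * q + 3) * (4 * q + 3 - 1) / 2 = 2 * (4 * q * q + 5 * q + 1) + 1 := by
      rw [show (4 * q + 3) * (4 * q + 3 - 1) = (2 * (4 * q * q + 5 * q + 1) + 1) * 2 by ring]
      simp
    rw [e, if_neg (by omega), Odd.neg_one_zpow ⟨_, rfl⟩]

theorem sg_add_four_mul (k : ℤ) (j : ℕ) : sg (k + 4 * j) = sg k := by
  unfold sg
  have : (k + 4 * j) / 2 % 2 = k / 2 % 2 := by omega
  rw [this]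

theorem δ_Lpow (j : ℕ) : D.δ * D.L ^ (2 * j) = D.L ^ (2 * j) * D.δ := by
  induction j with
  | zero => simp
  | succ j ih =>
    have h2 : D.δ * (D.L * D.L) = D.L * D.L * D.δ := by
      rw [← mul_assoc, D.δ_L, neg_mul, mul_assoc, D.δ_L, mul_neg, neg_neg, mul_assoc]
    have e : D.L ^ (2 * (j + 1)) = D.L ^ (2 * j) * (D.L * D.L) := by
      rw [show 2 * (j + 1) = 2 * j + 1 + 1 by ring, pow_succ, pow_succ, mul_assoc]
    rw [e, ← mul_assoc, ih, mul_assoc, h2]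
    simp only [mul_assoc]

theorem bf_pos (j : ℕ) {x : Module.End ℚ D.V} (hxE : x ∈ D.E)
    (hx : D.π (n + 2 * (-(j : ℤ))) * x = x) (hx0 : x ≠ 0) (hL : D.L ^ (2 * j + 1) * x = 0) :
    0 < D.bf x (D.L ^ (2 * j) * x) := by
  set k : ℤ := n + 2 * (-(j : ℤ)) with hk
  have hxG : ∀ v, x v ∈ D.G k := fun v => by
    rw [← hx]
    exact D.π_mem_G k _
  have hs : D.s * x = sg k • (D.L ^ (2 * j) * x) := by
    ext v
    have h1 := D.s_spec k 0 (2 * j) (by rw [hk]; push_cast; ring) (x v) (hxG v) (by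
      rw [Nat.zero_add]
      exact congrArg (fun y : Module.End ℚ D.V => y v) hL)
    rw [pow_zero, Module.End.one_apply, sg_zpow] at h1
    exact h1
  have hsx : D.L ^ (2 * j) * x = sg k • (D.s * x) := by
    rw [hs, smul_smul, sg_sq, one_smul]
  have hδ : D.δ * (D.L ^ (2 * j) * x) = D.s * x := by
    have h1 : D.L ^ (2 * j) * x = D.π (k + 2 * (2 * j : ℕ)) * (D.L ^ (2 * j) * x) := by
      rw [← mul_assoc, D.π_Lpow, mul_assoc, hx]
    rw [h1, ← mul_assoc, D.δ_π, smul_mul_assoc, ← h1, hsx, smul_smul]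
    have : sg (k + 2 * (2 * j : ℕ)) = sg k := by
      rw [← sg_add_four_mul k j]
      congr 1
      push_cast
      ring
    rw [this, sg_sq, one_smul]
  have e1 : D.b0 x (D.L ^ (2 * j) * x) = LinearMap.trace ℚ D.V (x * D.s * D.t x * D.s) := by
    rw [b0_apply, mul_assoc (D.t x), hδ]
    have h3 : D.t x * (D.s * x) * D.s = (D.t x * D.s) * (x * D.s) := by simp only [mul_assoc]
    rw [h3, LinearMap.trace_mul_comm]
    simp only [mul_assoc]
  have e2 : D.b0 (D.L ^ (2 * j) * x) x = D.b0 x (D.L ^ (2 * j) * x) := by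
    have ht : D.t (D.L ^ (2 * j)) = D.L ^ (2 * j) := by
      have : ∀ m : ℕ, D.t (D.L ^ m) = D.L ^ m := by
        intro m
        induction m with
        | zero => exact D.t_uniq fun u v => by simp
        | succ m ih => rw [pow_succ, D.t_mul, ih, D.t_L, ← pow_succ']
                       exact pow_succ _ _
      exact this _
    rw [b0_apply, b0_apply, D.t_mul, ht, mul_assoc (D.t x), ← D.δ_Lpow]
    simp only [mul_assoc]
  rw [bf_apply, e2, e1]
  have := D.pos x hxE hx0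
  linarith

theorem lhr {T : Submodule ℚ (Module.End ℚ D.V)} (hT : D.LId T) {p : Module.End ℚ D.V}
    (hp : D.Pj p) : LHR D.LL D.bf (2 * n) (fun i => D.H T p (n + 2 * i)) where
  indep := by
    intro i
    rw [Submodule.disjoint_def]
    intro x hx hx2
    have h1 : (⨆ (j : ℤ) (_ : j ≠ i), D.H T p (n + 2 * j)) ≤
        LinearMap.ker (LinearMap.mulLeft ℚ (D.π (n + 2 * i))) := by
      refine iSup₂_le fun j hj y hy => ?_
      rw [LinearMap.mem_ker, LinearMap.mulLeft_apply, ← hy.2.2, ← mul_assoc,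
        D.π_orth (by omega), zero_mul]
    have h2 := h1 hx2
    rw [LinearMap.mem_ker, LinearMap.mulLeft_apply, hx.2.2] at h2
    exact h2
  bot := fun i hi => D.H_bot T p (by omega)
  map := fun i x hx => by
    have := D.H_L hT hp hx 1
    rw [pow_one] at this
    have e : ((n : ℤ) + 2 * i + 2 * (1 : ℕ)) = n + 2 * (i + 1) := by push_cast; ring
    rw [e] at this
    exact this
  inj := fun j x hx h0 => by
    rw [LL_pow] at h0
    refine D.H_inj (2 * j) (fun v => ?_) h0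
    have := H_G hx v
    have e : (n : ℤ) + 2 * (-(j : ℤ)) = n - ((2 * j : ℕ) : ℤ) := by push_cast; ring
    rwa [e] at this
  surj := fun j y hy => by
    have e : (n : ℤ) + 2 * (j : ℤ) = n + ((2 * j : ℕ) : ℤ) := by push_cast; ring
    have e2 : (n : ℤ) + 2 * (-(j : ℤ)) = n - ((2 * j : ℕ) : ℤ) := by push_cast; ring
    simp only [e] at hy
    obtain ⟨x, hx, hxy⟩ := D.H_surj hT hp (2 * j) hy
    refine ⟨x, ?_, ?_⟩
    · simp only [e2]
      exact hx
    · rw [LL_pow, hxy]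
  orth := fun i k x y hx hy hik => by
    rw [bf_apply, D.b0_orth hx.2.2 hy.2.2 hik, D.b0_orth hy.2.2 hx.2.2 (by omega), add_zero]
  pos := fun j x hx hx0 h0 => by
    rw [LL_pow] at h0 ⊢
    exact D.bf_pos j (hT.le x hx.1) hx.2.2 hx0 h0

end HomMot

end Pool.Agent.W539.Mot
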